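import Mathlib

/-!
# Two statements about the affine Fermat curve (pieces to be proved)
-/

set_option autoImplicit false

namespace Pool.Agent.Helper17.NG

open Polynomial TensorProduct

/-- The ring `κ[x][y] / (y ^ n + x ^ n + 1)`. -/
abbrev FC (κ : Type) [Field κ] (n : ℕ) : Type := AdjoinRoot (X ^ n + C (X ^ n + 1) : (κ[X])[X])

/-- Piece 1: `κ[x,y]/(y^n + x^n + 1)` is smooth of relative dimension one over `κ` if `n` is invertible. -/
def SmoothStm : Prop := ∀ (κ : Type) [Field κ] (n : ℕ), (n : κ) ≠ 0 →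
  RingHom.Locally (RingHom.IsStandardSmoothOfRelativeDimension 1) (algebraMap κ (FC κ n))

/-- Piece 2: `κ[x,y]/(y^n + x^n + 1)` is geometrically integral over `κ` if `n` is invertible. -/
def DomainStm : Prop := ∀ (κ : Type) [Field κ] (n : ℕ), (n : κ) ≠ 0 →
  ∀ (K : Type) [Field K] [Algebra κ K], IsDomain (FC κ n ⊗[κ] K)

end Pool.Agent.Helper17.NG
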