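import Pool.Agent.Helper17.NG.Sch

set_option autoImplicit false

universe v' v u' u

noncomputable section

namespace Pool.Agent.Helper17.NG

open CategoryTheory Opposite AlgebraicGeometry Limits

variable {κ : Type} [Field κ]

section

variable {A B : Type} [CommRing A] [Algebra κ A] [CommRing B] [Algebra κ B]

/-- The ring homomorphism of global functions of a morphism to `Spec A`. -/
def gm {Y : Sch κ} (g : Y ⟶ sp κ A) : A →+* Γ(Y.left, ⊤) :=
  (g.left.appTop.hom).comp (Scheme.ΓSpecIso (CommRingCat.of A)).inv.hom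

/-- The structure homomorphism. -/
def str (Y : Sch κ) : κ →+* Γ(Y.left, ⊤) :=
  (Y.hom.appTop.hom).comp (Scheme.ΓSpecIso (CommRingCat.of κ)).inv.hom

lemma gm_ext {Y : Sch κ} {g g' : Y ⟶ sp κ A} (h : ∀ x, gm g x = gm g' x) : g = g' := by
  apply Over.OverMorphism.ext
  have : IsAffine (sp κ A).left := inferInstanceAs (IsAffine (Spec _))
  apply ext_of_isAffine
  have h1 : (Scheme.ΓSpecIso (CommRingCat.of A)).inv ≫ g.left.appTop =
      (Scheme.ΓSpecIso (CommRingCat.of A)).inv ≫ g'.left.appTop := by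
    ext x
    exact h x
  exact (cancel_epi _).1 h1

lemma gm_comp {Y Z : Sch κ} (h : Z ⟶ Y) (g : Y ⟶ sp κ A) (x : A) :
    gm (h ≫ g) x = h.left.appTop.hom (gm g x) := by
  have h1 : (h ≫ g).left.appTop = g.left.appTop ≫ h.left.appTop := by
    rw [Over.comp_left, Scheme.Hom.comp_appTop]
  simp only [gm, h1]
  rfl

/-- The morphism of an algebra homomorphism. -/
def spMap (φ : A →ₐ[κ] B) : sp κ B ⟶ sp κ A :=
  Over.homMk (Spec.map (CommRingCat.ofHom φ.toRingHom)) (by
    dsimp
    rw [← Spec.map_comp, ← CommRingCat.ofHom_comp]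
    congr 2
    ext x
    simp)

lemma gm_comp_spMap {Y : Sch κ} (g : Y ⟶ sp κ B) (φ : A →ₐ[κ] B) (x : A) :
    gm (g ≫ spMap φ) x = gm g (φ x) := by
  have h := Scheme.ΓSpecIso_inv_naturality (CommRingCat.ofHom φ.toRingHom)
  have h2 := congrArg (fun f => f.hom x) h
  have h1 : (g ≫ spMap φ).left.appTop =
      (Spec.map (CommRingCat.ofHom φ.toRingHom)).appTop ≫ g.left.appTop := by
    rw [Over.comp_left, Scheme.Hom.comp_appTop]
    rfl
  simp only [gm, h1]
  exact congrArg g.left.appTop.hom h2.symm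

lemma gm_algebraMap {Y : Sch κ} (g : Y ⟶ sp κ A) (c : κ) : gm g (algebraMap κ A c) = str Y c := by
  have h := Scheme.ΓSpecIso_inv_naturality (CommRingCat.ofHom (algebraMap κ A))
  have h2 := congrArg (fun f => f.hom c) h
  have h3 : g.left ≫ Spec.map (CommRingCat.ofHom (algebraMap κ A)) = Y.hom := Over.w g
  have h4 : Y.hom.appTop =
      (Spec.map (CommRingCat.ofHom (algebraMap κ A))).appTop ≫ g.left.appTop := by
    rw [← h3, Scheme.Hom.comp_appTop]
  simp only [gm, str, h4]
  exact congrArg g.left.appTop.hom h2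

lemma spMap_comp {A' : Type} [CommRing A'] [Algebra κ A'] (φ : A →ₐ[κ] B) (ψ : B →ₐ[κ] A') :
    spMap (ψ.comp φ) = spMap ψ ≫ spMap φ := by
  apply gm_ext
  intro x
  have h := gm_comp_spMap (𝟙 _) (ψ.comp φ) x
  rw [Category.id_comp] at h
  rw [h, gm_comp_spMap]
  have h := gm_comp_spMap (𝟙 _) ψ (φ x)
  rw [Category.id_comp] at h
  rw [h]
  rfl

lemma spMap_id : spMap (AlgHom.id κ A) = 𝟙 _ := by
  apply gm_ext
  intro x
  have h := gm_comp_spMap (𝟙 _) (AlgHom.id κ A) x
  rw [Category.id_comp] at h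
  rw [h]
  rfl

/-- Every morphism between affine schemes comes from a homomorphism. -/
lemma exists_spMap (g : sp κ B ⟶ sp κ A) : ∃ φ : A →ₐ[κ] B, g = spMap φ := by
  obtain ⟨f, hf⟩ := Spec.map_surjective g.left
  have h3 : g.left ≫ Spec.map (CommRingCat.ofHom (algebraMap κ A)) =
      Spec.map (CommRingCat.ofHom (algebraMap κ B)) := Over.w g
  have h4 : CommRingCat.ofHom (algebraMap κ A) ≫ f = CommRingCat.ofHom (algebraMap κ B) := by
    apply Spec.map_injective
    rw [Spec.map_comp, hf]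
    exact h3
  exact ⟨{ f.hom with commutes' := fun c => congrArg (fun f => f.hom c) h4 },
    Over.OverMorphism.ext hf.symm⟩

lemma spMap_injective {φ ψ : A →ₐ[κ] B} (h : spMap φ = spMap ψ) : φ = ψ := by
  have h1 : Spec.map (CommRingCat.ofHom φ.toRingHom) = Spec.map (CommRingCat.ofHom ψ.toRingHom) :=
    congrArg (fun g => g.left) h
  have h2 := Spec.map_injective h1
  ext x
  exact congrArg (fun f => f.hom x) h2

end

/-- Every affine `κ`-scheme is isomorphic to some `Spec A`. -/
lemma exists_iso_sp (R : Sch κ) [IsAffine R.left] :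
    ∃ (A : Type) (_ : CommRing A) (_ : Algebra κ A), Nonempty (R ≅ sp κ A) := by
  refine ⟨Γ(R.left, ⊤), inferInstance, (str R).toAlgebra, ⟨Over.isoMk R.left.isoSpec ?_⟩⟩
  change R.left.toSpecΓ ≫ Spec.map (CommRingCat.ofHom (str R)) = R.hom
  have h1 : CommRingCat.ofHom (str R) =
      (Scheme.ΓSpecIso (CommRingCat.of κ)).inv ≫ R.hom.appTop := rfl
  rw [h1, Spec.map_comp, ← Category.assoc, ← Scheme.toSpecΓ_naturality, Category.assoc]
  have h2 : (Spec (CommRingCat.of κ)).toSpecΓ ≫
      Spec.map (Scheme.ΓSpecIso (CommRingCat.of κ)).inv = 𝟙 _ := by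
    simp
  exact (congrArg (fun f => R.hom ≫ f) h2).trans (Category.comp_id _)

/-- Every finite `κ`-scheme is isomorphic to `Spec A` for a finite `κ`-algebra `A`. -/
lemma exists_iso_sp_finite (R : Sch κ) [IsFinite R.hom] :
    ∃ (A : Type) (_ : CommRing A) (_ : Algebra κ A), Module.Finite κ A ∧ Nonempty (R ≅ sp κ A) := by
  have : IsAffine R.left := isAffine_of_isAffineHom R.hom
  obtain ⟨A, _, _, ⟨e⟩⟩ := exists_iso_sp R
  refine ⟨A, _, _, ?_, ⟨e⟩⟩
  have h1 : Spec.map (CommRingCat.ofHom (algebraMap κ A)) = e.inv.left ≫ R.hom :=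
    (Over.w e.inv).symm
  have h2 : IsFinite (Spec.map (CommRingCat.ofHom (algebraMap κ A))) := by
    rw [h1]
    have : IsIso e.inv.left := inferInstanceAs (IsIso ((Over.forget _).map e.inv))
    infer_instance
  rw [IsFinite.SpecMap_iff] at h2
  exact RingHom.finite_algebraMap.1 h2

/-- A nonempty `κ`-scheme has a point over some field. -/
lemma exists_field_point (Z : Sch κ) (hZ : Nonempty Z.left) :
    ∃ (K : Type) (_ : Field K) (_ : Algebra κ K), Nonempty (sp κ K ⟶ Z) := by
  obtain ⟨z⟩ := hZ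
  obtain ⟨f, hf⟩ := Spec.map_surjective (Z.left.fromSpecResidueField z ≫ Z.hom)
  let _ : Algebra κ (Z.left.residueField z) := f.hom.toAlgebra
  exact ⟨Z.left.residueField z, inferInstance, f.hom.toAlgebra,
    ⟨Over.homMk (Z.left.fromSpecResidueField z) hf.symm⟩⟩

/-- A nonempty finite `κ`-scheme has a point over some finite extension. -/
lemma exists_finite_point (A : Type) [CommRing A] [Algebra κ A] [Module.Finite κ A]
    [Nontrivial A] : ∃ (L : Type) (_ : Field L) (_ : Algebra κ L) (_ : Module.Finite κ L)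
      (φ : A →ₐ[κ] L), Function.Surjective φ := by
  obtain ⟨m, hm⟩ := Ideal.exists_maximal A
  let _ := Ideal.Quotient.field m
  exact ⟨A ⧸ m, inferInstance, inferInstance, inferInstance, Ideal.Quotient.mkₐ κ m,
    Ideal.Quotient.mkₐ_surjective κ m⟩

end Pool.Agent.Helper17.NG
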