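import Mathlib

/-!
# Stacks, finite gerbes, profinite gerbes and the fundamental gerbe

Fibered categories are pseudofunctors, stacks are stacks for the fpqc topology
(`Pseudofunctor.IsStack` and `Scheme.fpqcTopology`, all from Mathlib).
-/

set_option autoImplicit false
set_option linter.checkUnivs false

universe w' w v' v u' u

noncomputable section

namespace Pool.Agent.Helper17.NG

open CategoryTheory Opposite Bicategory AlgebraicGeometry

section Fibered

variable {C : Type u} [Category.{v} C]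

/-- Fibered categories over `C`: pseudofunctors from the opposite category of `C` to categories. -/
abbrev Psf (C : Type u) [Category.{v} C] := LocallyDiscrete Cᵒᵖ ⥤ᵖ Cat.{v', u'}

/-- The category `F(T)`. -/
def Fi (F : Psf.{v', v, u', u} C) (T : C) : Type u' := F.obj (.mk (op T))

instance (F : Psf.{v', v, u', u} C) (T : C) : Category.{v'} (Fi F T) := (F.obj (.mk (op T))).str

/-- The pull-back functor `F(X) ⥤ F(Y)` of `f : Y ⟶ X`. -/
def pf (F : Psf.{v', v, u', u} C) {Y X : C} (f : Y ⟶ X) : Fi F X ⥤ Fi F Y :=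
  (F.map f.op.toLoc).toFunctor

/-- The pull-back `f^* M`. -/
def pl {F : Psf.{v', v, u', u} C} {Y X : C} (f : Y ⟶ X) (M : Fi F X) : Fi F Y := (pf F f).obj M

/-- The pull-back of `φ : a^* M ⟶ b^* N` along `g`, a morphism `(g ≫ a)^* M ⟶ (g ≫ b)^* N`. -/
def plHom {F : Psf.{v', v, u', u} C} {X X' Y Y' : C} {M : Fi F X} {N : Fi F X'}
    {a : Y ⟶ X} {b : Y ⟶ X'} (φ : pl a M ⟶ pl b N) (g : Y' ⟶ Y) (ga : Y' ⟶ X) (gb : Y' ⟶ X')
    (ha : g ≫ a = ga) (hb : g ≫ b = gb) : pl ga M ⟶ pl gb N :=
  Pseudofunctor.LocallyDiscreteOpToCat.pullHom (F := F) (M₁ := M) (M₂ := N) φ g ga gb ha hb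

/-- The fibre product `T₁ ×_F T₂` of two objects `y₁` over `T₁` and `y₂` over `T₂` of a category
`F` fibered in groupoids, if it is representable: an object `R` with projections `s`, `t` and a morphism
`ρ : s^* y₁ ⟶ t^* y₂` such that every morphism `a^* y₁ ⟶ b^* y₂` over `Y` is the pull-back of
`ρ` under exactly one `r : Y ⟶ R` with `r ≫ s = a`, `r ≫ t = b`. -/
structure FP (F : Psf.{v', v, u', u} C) {T₁ T₂ : C} (y₁ : Fi F T₁) (y₂ : Fi F T₂) where
  R : C
  s : R ⟶ T₁
  t : R ⟶ T₂
  ρ : pl s y₁ ⟶ pl t y₂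
  universal : ∀ (Y : C) (a : Y ⟶ T₁) (b : Y ⟶ T₂) (φ : pl a y₁ ⟶ pl b y₂),
    ∃! r : Y ⟶ R, ∃ (ha : r ≫ s = a) (hb : r ≫ t = b), plHom ρ r a b ha hb = φ

/-- Morphisms of fibered categories: pseudonatural transformations. -/
def Mor (F G : Psf.{v', v, u', u} C) := Pseudofunctor.StrongTrans F G

/-- The image `φ(x)` of an object `x` of `F(T)`. -/
def Mor.ev {F G : Psf.{v', v, u', u} C} (φ : Mor F G) {T : C} (x : Fi F T) : Fi G T :=
  (φ.app (.mk (op T))).toFunctor.obj x

/-- 2-morphisms: modifications. -/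
def TwoMor {F G : Psf.{v', v, u', u} C} (φ ψ : Mor F G) :=
  Pseudofunctor.StrongTrans.Modification φ ψ

/-- The component `φ(x) ⟶ ψ(x)` of a 2-morphism. -/
def TwoMor.ev {F G : Psf.{v', v, u', u} C} {φ ψ : Mor F G} (m : TwoMor φ ψ) {T : C} (x : Fi F T) :
    φ.ev x ⟶ ψ.ev x :=
  (m.app (.mk (op T))).toNatTrans.app x

end Fibered

section Diagrams

variable {J : Type w} [Category.{w'} J] {C : Type u} [Category.{v} C]

/-- The morphism `(j, T) ⟶ (i, T)` of a morphism `u : j ⟶ i` of `J`. -/
def mp {j i : J} (u : j ⟶ i) (T : C) :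
    ((WithTerminal.incl.obj j, T) : WithTerminal J × C) ⟶ (WithTerminal.incl.obj i, T) :=
  (WithTerminal.incl.map u, 𝟙 T)

/-- The morphism `(j, T) ⟶ (star, T)`. -/
def st (j : J) (T : C) :
    ((WithTerminal.incl.obj j, T) : WithTerminal J × C) ⟶ (WithTerminal.star, T) :=
  (WithTerminal.homFrom j, 𝟙 T)

lemma mp_comp {k j i : J} (v : k ⟶ j) (u : j ⟶ i) (T : C) : mp v T ≫ mp u T = mp (v ≫ u) T :=
  Prod.ext (WithTerminal.incl.map_comp v u).symm (Category.comp_id (𝟙 T))

lemma mp_st {j i : J} (u : j ⟶ i) (T : C) : mp u T ≫ st i T = st j T :=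
  Prod.ext (WithTerminal.starTerminal.hom_ext _ _) (Category.comp_id (𝟙 T))

/-- The fibered category `D(j, -)` of a diagram `D`. -/
def slice (D : Psf.{v', _, u', _} (WithTerminal J × C)) (j : WithTerminal J) :
    Psf.{v', v, u', u} C :=
  (Prod.sectR j C).op.toPseudofunctor.comp D

/-- A compatible system of objects `obj j` of `D(j, T)`, `j ∈ J`, with isomorphisms between the
pull-back of `obj i` and `obj j` for all `u : j ⟶ i`: an object over `T` of the limit of the
`D(j, -)`. -/
structure Compatible (D : Psf.{v', _, u', _} (WithTerminal J × C)) (T : C) where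
  obj : ∀ j : J, Fi D (WithTerminal.incl.obj j, T)
  hom : ∀ {j i : J} (u : j ⟶ i), pl (mp u T) (obj i) ⟶ pl (𝟙 _) (obj j)
  isIso : ∀ {j i : J} (u : j ⟶ i), IsIso (hom u)
  comp : ∀ {k j i : J} (v : k ⟶ j) (u : j ⟶ i),
    hom (v ≫ u) = plHom (hom u) (mp v T) (mp (v ≫ u) T) (mp v T) (mp_comp v u T)
      (Category.comp_id _) ≫ hom v

/-- `D(star, -)` is the limit of the `D(j, -)`, `j ∈ J`: every compatible system over `T` comes
from an object of `D(star, T)`, and compatible systems of morphisms come from unique morphisms. -/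
structure IsLimitDiagram (D : Psf.{v', _, u', _} (WithTerminal J × C)) : Prop where
  obj : ∀ (T : C) (s : Compatible D T), ∃ (y : Fi D (WithTerminal.star, T))
    (e : ∀ j : J, pl (st j T) y ⟶ pl (𝟙 _) (s.obj j)), (∀ j, IsIso (e j)) ∧
    ∀ {j i : J} (u : j ⟶ i),
      e j = plHom (e i) (mp u T) (st j T) (mp u T) (mp_st u T) (Category.comp_id _) ≫ s.hom u
  hom : ∀ (T : C) (y y' : Fi D (WithTerminal.star, T))
    (φ : ∀ j : J, pl (st j T) y ⟶ pl (st j T) y'),
    (∀ {j i : J} (u : j ⟶ i),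
      φ j = plHom (φ i) (mp u T) (st j T) (st j T) (mp_st u T) (mp_st u T)) →
    ∃! ψ : y ⟶ y', ∀ j : J, (pf D (st j T)).map ψ = φ j

end Diagrams

/-- The category of `κ`-schemes. -/
abbrev Sch (κ : Type) [Field κ] : Type 1 := Over (Spec (CommRingCat.of κ))

/-- The `κ`-scheme `Spec κ`. -/
abbrev pt (κ : Type) [Field κ] : Sch κ := Over.mk (𝟙 (Spec (CommRingCat.of κ)))

/-- The fpqc topology on the category of `κ`-schemes. -/
abbrev fpqc (κ : Type) [Field κ] : GrothendieckTopology (Sch κ) :=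
  Scheme.fpqcTopology.over (Spec (CommRingCat.of κ))

variable {κ : Type} [Field κ]

/-- `F` is a stack in groupoids for the fpqc topology. -/
structure IsGroupoidStack (F : Psf.{v', _, u', _} (Sch κ)) : Prop where
  isStack : F.IsStack (fpqc κ)
  isIso : ∀ (T : Sch κ) (y y' : Fi F T) (φ : y ⟶ y'), IsIso φ

/-- A finite stack: a stack in groupoids `F` such that
* the diagonal is representable and finite: for objects `y₁` over `T₁` and `y₂` over `T₂` the fibre product
  `R = T₁ ×_F T₂` is a scheme, and `R ⟶ T₁ ×_κ T₂` is finite;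
* there is an object `u` over a finite `κ`-scheme `U` such that `U ⟶ F` is flat and surjective:
  for every object `y` over `T` the projection `U ×_F T ⟶ T` is flat and surjective.

Then `R = U ×_F U` is finite over `κ` and `F` is the quotient of `U` by the finite flat groupoid
`R ⇉ U`. -/
structure IsFiniteStack (F : Psf.{v', _, u', _} (Sch κ)) : Prop extends IsGroupoidStack F where
  diagonal : ∀ (T₁ T₂ : Sch κ) (y₁ : Fi F T₁) (y₂ : Fi F T₂), ∃ P : FP F y₁ y₂,
    IsFinite (Limits.pullback.lift (f := T₁.hom) (g := T₂.hom) P.s.left P.t.left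
      ((Over.w P.s).trans (Over.w P.t).symm))
  atlas : ∃ (U : Sch κ) (u : Fi F U), IsFinite U.hom ∧
    ∀ (T : Sch κ) (y : Fi F T) (P : FP F u y), Flat P.t.left ∧ Surjective P.t.left

/-- A finite gerbe: a finite stack which is a gerbe, i.e. locally nonempty, and any two objects
are locally isomorphic, for the fpqc topology. -/
structure IsFiniteGerbe (F : Psf.{v', _, u', _} (Sch κ)) : Prop extends IsFiniteStack F where
  locally_nonempty : ∃ R ∈ fpqc κ (pt κ), ∀ (T : Sch κ) (h : T ⟶ pt κ), R h → Nonempty (Fi F T)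
  locally_isomorphic : ∀ (T : Sch κ) (y y' : Fi F T), ∃ R ∈ fpqc κ T,
    ∀ (Z : Sch κ) (h : Z ⟶ T), R h → Nonempty (pl h y ⟶ pl h y')

/-- A profinite gerbe: the limit of a projective system of finite gerbes, indexed by a filtered category
`J`. The diagram `D` consists of the finite gerbes `D(j, -)`, `j ∈ J`, and of the fibered category
`D(star, -)` with its projections to all `D(j, -)` (`WithTerminal J` is `J` with a terminal object
`star` added; a morphism `j ⟶ i` gives a morphism `D(i, -) ⟶ D(j, -)`), which is the limit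
of the `D(j, -)`. -/
structure ProfiniteGerbe (κ : Type) [Field κ] where
  J : Type w
  [cat : Category.{w'} J]
  [filtered : IsFiltered J]
  D : Psf.{v', _, u', _} (WithTerminal J × Sch κ)
  finite : ∀ j : J, IsFiniteGerbe (slice D (WithTerminal.incl.obj j))
  limit : IsLimitDiagram D

attribute [instance] ProfiniteGerbe.cat ProfiniteGerbe.filtered

/-- The stack of a profinite gerbe. -/
def ProfiniteGerbe.gerbe (G : ProfiniteGerbe.{w', w, v', u'} κ) : Psf.{v', _, u', _} (Sch κ) :=
  slice G.D WithTerminal.star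

/-- The set of isomorphism classes of `F(κ)`. -/
def classes (F : Psf.{v', _, u', _} (Sch κ)) : Type u' := Quotient (isIsomorphicSetoid (Fi F (pt κ)))

/-- The map `X(κ) ⟶ [F(κ)]`, `x ↦ x^* π`, of an object `π` over `X`, that is, of a morphism
`X ⟶ F`. -/
def sectionMap {F : Psf.{v', _, u', _} (Sch κ)} {X : Sch κ} (π : Fi F X) : (pt κ ⟶ X) → classes F :=
  fun x => Quotient.mk _ (pl x π)

/-- The profinite gerbe `G` with `π : X ⟶ G` (an object over `X`) is a fundamental gerbe of `X`:
for every finite stack `Γ` the functor `Hom(G, Γ) ⟶ Γ(X)`, `φ ↦ φ(π)`, is an equivalence, so every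
morphism `X ⟶ Γ` factors through `G`, uniquely up to unique isomorphism. -/
structure IsFundamentalGerbe (X : Sch κ) (G : ProfiniteGerbe.{w', w, v', u'} κ)
    (π : Fi G.gerbe X) : Prop where
  essSurj : ∀ Γ : Psf.{v', _, u', _} (Sch κ), IsFiniteStack Γ → ∀ g : Fi Γ X,
    ∃ φ : Mor G.gerbe Γ, Nonempty (φ.ev π ≅ g)
  fullyFaithful : ∀ Γ : Psf.{v', _, u', _} (Sch κ), IsFiniteStack Γ → ∀ φ ψ : Mor G.gerbe Γ,
    Function.Bijective (fun m : TwoMor φ ψ => m.ev π)

end Pool.Agent.Helper17.NG
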