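import Pool.Agent.Helper17.NG.Calc
import Pool.Agent.Helper17.NG.Stmt

/-!
# Compactness: filtered limits of nonempty groupoids with finitely many classes and finite
automorphism groups are nonempty
-/

set_option autoImplicit false

universe w' w v' v u' u

noncomputable section

namespace Pool.Agent.Helper17.NG

open CategoryTheory Opposite Bicategory

section

variable {C : Type u} [Category.{v} C] {F : Psf.{v', v, u', u} C}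

lemma plHom_comp {X₁ X₂ X₃ Y Y' : C} {M₁ : Fi F X₁} {M₂ : Fi F X₂} {M₃ : Fi F X₃}
    {f₁ : Y ⟶ X₁} {f₂ : Y ⟶ X₂} {f₃ : Y ⟶ X₃}
    (φ : pl f₁ M₁ ⟶ pl f₂ M₂) (ψ : pl f₂ M₂ ⟶ pl f₃ M₃) (g : Y' ⟶ Y)
    (gf₁ : Y' ⟶ X₁) (gf₂ : Y' ⟶ X₂) (gf₃ : Y' ⟶ X₃)
    (h₁ : g ≫ f₁ = gf₁) (h₂ : g ≫ f₂ = gf₂) (h₃ : g ≫ f₃ = gf₃) :
    plHom (φ ≫ ψ) g gf₁ gf₃ h₁ h₃ = plHom φ g gf₁ gf₂ h₁ h₂ ≫ plHom ψ g gf₂ gf₃ h₂ h₃ :=
  pullHom_comp (F := F) (M₁ := M₁) (M₂ := M₂) (M₃ := M₃) φ ψ g gf₁ gf₂ gf₃ h₁ h₂ h₃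

lemma plHom_one {X₁ Y Y' : C} (M₁ : Fi F X₁) (f₁ : Y ⟶ X₁) (g : Y' ⟶ Y) (gf₁ : Y' ⟶ X₁)
    (h₁ : g ≫ f₁ = gf₁) :
    plHom (𝟙 (pl f₁ M₁)) g gf₁ gf₁ h₁ h₁ = 𝟙 _ :=
  pullHom_one (F := F) M₁ f₁ g gf₁ h₁

lemma plHom_plHom {X₁ X₂ Y Y' Y'' : C} {M₁ : Fi F X₁} {M₂ : Fi F X₂}
    {f₁ : Y ⟶ X₁} {f₂ : Y ⟶ X₂} (φ : pl f₁ M₁ ⟶ pl f₂ M₂) (g : Y' ⟶ Y) (gf₁ : Y' ⟶ X₁) (gf₂ : Y' ⟶ X₂)
    (h₁ : g ≫ f₁ = gf₁) (h₂ : g ≫ f₂ = gf₂) (g' : Y'' ⟶ Y') (g'f₁ : Y'' ⟶ X₁) (g'f₂ : Y'' ⟶ X₂)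
    (k₁ : g' ≫ gf₁ = g'f₁) (k₂ : g' ≫ gf₂ = g'f₂) :
    plHom (plHom φ g gf₁ gf₂ h₁ h₂) g' g'f₁ g'f₂ k₁ k₂ =
      plHom φ (g' ≫ g) g'f₁ g'f₂ (by rw [Category.assoc, h₁, k₁]) (by rw [Category.assoc, h₂, k₂]) :=
  Pseudofunctor.LocallyDiscreteOpToCat.pullHom_pullHom (F := F) (M₁ := M₁) (M₂ := M₂) φ g gf₁ gf₂ g'
    g'f₁ g'f₂ h₁ h₂ k₁ k₂

/-- The pull-back along the identity. -/
def plId (F : Psf.{v', v, u', u} C) {X : C} (M : Fi F X) : pl (𝟙 X) M ≅ M :=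
  (Cat.Hom.toNatIso (F.mapId (.mk (op X)))).app M

end

variable {J : Type w} [Category.{w'} J] {C : Type u} [Category.{v} C]
  (D : Psf.{v', _, u', _} (WithTerminal J × C)) (T : C)

lemma plHom_congr_left {F : Psf.{v', v, u', u} C} {X₁ X₂ Y Y' : C} {M₁ : Fi F X₁} {M₂ : Fi F X₂}
    {f₁ : Y ⟶ X₁} {f₂ : Y ⟶ X₂} (φ : pl f₁ M₁ ⟶ pl f₂ M₂) {g g' : Y' ⟶ Y} (h : g = g') (gf₁ : Y' ⟶ X₁)
    (gf₂ : Y' ⟶ X₂) (h₁ : g ≫ f₁ = gf₁) (h₂ : g ≫ f₂ = gf₂) :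
    plHom φ g gf₁ gf₂ h₁ h₂ = plHom φ g' gf₁ gf₂ (h ▸ h₁) (h ▸ h₂) := by
  subst h
  rfl

/-- The transition morphism built from isomorphisms `θ`. -/
def tm {j i k : J} (u : j ⟶ i) (p : i ⟶ k) (q : j ⟶ k) (h : u ≫ p = q)
    {y : Fi D (WithTerminal.incl.obj k, T)} {x : Fi D (WithTerminal.incl.obj i, T)}
    {x' : Fi D (WithTerminal.incl.obj j, T)} (θ : pl (mp p T) y ≅ pl (𝟙 _) x)
    (θ' : pl (mp q T) y ≅ pl (𝟙 _) x') : pl (mp u T) x ⟶ pl (𝟙 _) x' :=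
  plHom θ.inv (mp u T) (mp u T) (mp q T) (Category.comp_id _) (by rw [mp_comp, h]) ≫ θ'.hom

lemma tm_comp {l j i k : J} (v : l ⟶ j) (u : j ⟶ i) (p : i ⟶ k) (q : j ⟶ k) (r : l ⟶ k) (h : u ≫ p = q)
    (h' : v ≫ q = r) (h'' : (v ≫ u) ≫ p = r)
    {y : Fi D (WithTerminal.incl.obj k, T)} {x : Fi D (WithTerminal.incl.obj i, T)}
    {x' : Fi D (WithTerminal.incl.obj j, T)} {x'' : Fi D (WithTerminal.incl.obj l, T)}
    (θ : pl (mp p T) y ≅ pl (𝟙 _) x)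
    (θ' : pl (mp q T) y ≅ pl (𝟙 _) x') (θ'' : pl (mp r T) y ≅ pl (𝟙 _) x'') :
    tm D T (v ≫ u) p r h'' θ θ'' =
      plHom (tm D T u p q h θ θ') (mp v T) (mp (v ≫ u) T) (mp v T) (mp_comp v u T)
        (Category.comp_id _) ≫ tm D T v q r h' θ' θ'' := by
  have e1 : plHom (tm D T u p q h θ θ') (mp v T) (mp (v ≫ u) T) (mp v T) (mp_comp v u T)
        (Category.comp_id _) =
      plHom (plHom θ.inv (mp u T) (mp u T) (mp q T) (Category.comp_id _) (by rw [mp_comp, h]))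
        (mp v T) (mp (v ≫ u) T) (mp r T) (mp_comp v u T) (by rw [mp_comp, h']) ≫
      plHom θ'.hom (mp v T) (mp r T) (mp v T) (by rw [mp_comp, h']) (Category.comp_id _) :=
    plHom_comp _ _ _ _ _ _ _ _ _
  have e2 : plHom θ'.hom (mp v T) (mp r T) (mp v T) (by rw [mp_comp, h']) (Category.comp_id _) ≫
      plHom θ'.inv (mp v T) (mp v T) (mp r T) (Category.comp_id _) (by rw [mp_comp, h']) = 𝟙 _ := by
    rw [← plHom_comp, Iso.hom_inv_id, plHom_one]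
  have e3 : plHom (plHom θ.inv (mp u T) (mp u T) (mp q T) (Category.comp_id _) (by rw [mp_comp, h]))
        (mp v T) (mp (v ≫ u) T) (mp r T) (mp_comp v u T) (by rw [mp_comp, h']) =
      plHom θ.inv (mp (v ≫ u) T) (mp (v ≫ u) T) (mp r T) (Category.comp_id _)
        (by rw [mp_comp, h'']) := by
    rw [plHom_plHom]
    exact plHom_congr_left (C := WithTerminal J × C) (F := D) _ (mp_comp v u T) _ _ _ _
  rw [e1, e3, tm, tm, Category.assoc]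
  rw [← Category.assoc (plHom θ'.hom _ _ _ _ _), e2, Category.id_comp]

section

variable [IsFiltered J]

/-- Compactness: a filtered diagram of nonempty groupoids which have finitely many classes and finite
sets of morphisms has a compatible system. -/
theorem exists_compatible
    (hiso : ∀ (i : J) (x y : Fi D (WithTerminal.incl.obj i, T)) (f : x ⟶ y), IsIso f)
    (hne : ∀ i : J, Nonempty (Fi D (WithTerminal.incl.obj i, T)))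
    (hfin : ∀ i : J, Finite (Quotient (isIsomorphicSetoid (Fi D (WithTerminal.incl.obj i, T)))))
    (hhom : ∀ (i : J) (x y : Fi D (WithTerminal.incl.obj i, T)), Finite (x ⟶ y)) :
    Nonempty (Compatible D T) := by
  classical
  let Q : J → Type _ := fun i => Quotient (isIsomorphicSetoid (Fi D (WithTerminal.incl.obj i, T)))
  let M : Type _ := Σ (j i : J), (j ⟶ i)
  let W : M → Type _ := fun m => Σ (d : Q m.1) (c : Q m.2.1),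
    (pl (mp m.2.2 T) c.out ⟶ pl (𝟙 _) d.out)
  have hWfin : ∀ m, Finite (W m) := by
    intro m
    have := hfin m.1
    have := hfin m.2.1
    have : ∀ (d : Q m.1) (c : Q m.2.1),
        Finite (pl (mp m.2.2 T) c.out ⟶ pl (𝟙 _) d.out) :=
      fun c d => hhom m.1 _ _
    infer_instance
  -- representatives
  have hrep : ∀ (i : J) (x : Fi D (WithTerminal.incl.obj i, T)),
      Nonempty (x ≅ (Quotient.mk (isIsomorphicSetoid _) x).out) := by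
    intro i x
    have h := Quotient.mk_out (s := isIsomorphicSetoid _) x
    exact ⟨(show IsIsomorphic _ _ from h).some.symm⟩
  have hneQ : ∀ i, Nonempty (Q i) := fun i => ⟨Quotient.mk _ (hne i).some⟩
  have hneW : ∀ m, Nonempty (W m) := by
    intro m
    obtain ⟨c⟩ := hneQ m.2.1
    let x := pl (mp m.2.2 T) c.out
    exact ⟨⟨Quotient.mk _ x, c, (hrep m.1 x).some.hom ≫ (plId D _).inv⟩⟩
  -- finite approximations
  have happ : ∀ E : Finset M, ∃ (x : ∀ i, Q i) (w : ∀ m, W m), (∀ m ∈ E, ∃ φ, w m = ⟨x m.1, x m.2.1, φ⟩) ∧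
      ∀ (k j i : J) (v : k ⟶ j) (u : j ⟶ i), (⟨k, j, v⟩ : M) ∈ E → (⟨j, i, u⟩ : M) ∈ E →
        (⟨k, i, v ≫ u⟩ : M) ∈ E → ∃ φ ψ χ, w ⟨j, i, u⟩ = ⟨x j, x i, φ⟩ ∧ w ⟨k, j, v⟩ = ⟨x k, x j, ψ⟩ ∧
          w ⟨k, i, v ≫ u⟩ = ⟨x k, x i, χ⟩ ∧ χ =
            plHom φ (mp v T) (mp (v ≫ u) T) (mp v T) (mp_comp v u T) (Category.comp_id _) ≫ ψ := by
    intro E
    let O : Finset J := E.image (fun m => m.1) ∪ E.image (fun m => m.2.1)
    have hO1 : ∀ m ∈ E, m.1 ∈ O := fun m hm =>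
      Finset.mem_union_left _ (Finset.mem_image_of_mem _ hm)
    have hO2 : ∀ m ∈ E, m.2.1 ∈ O := fun m hm =>
      Finset.mem_union_right _ (Finset.mem_image_of_mem _ hm)
    let H : Finset (Σ' (X Y : J) (_ : X ∈ O) (_ : Y ∈ O), X ⟶ Y) :=
      E.attach.image (fun m => ⟨m.1.1, m.1.2.1, hO1 _ m.2, hO2 _ m.2, m.1.2.2⟩)
    obtain ⟨k₀, π, hπ⟩ := IsFiltered.sup_exists O H
    have hπ' : ∀ (j i : J) (u : j ⟶ i) (hm : (⟨j, i, u⟩ : M) ∈ E),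
        u ≫ π (hO2 _ hm) = π (hO1 _ hm) := by
      intro i j u hm
      exact hπ _ _ (Finset.mem_image.2 ⟨⟨_, hm⟩, Finset.mem_attach _ _, rfl⟩)
    let y : Fi D (WithTerminal.incl.obj k₀, T) := (hne k₀).some
    let x : ∀ i, Q i := fun i =>
      if h : i ∈ O then Quotient.mk _ (pl (mp (π h) T) y)
      else (hneQ i).some
    have hθ : ∀ (i : J) (h : i ∈ O),
        Nonempty (pl (mp (π h) T) y ≅ pl (𝟙 _) (x i).out) := by
      intro i h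
      have h1 : Nonempty (pl (mp (π h) T) y ≅ (x i).out) := by
        simp only [x, dif_pos h]
        exact hrep i _
      exact ⟨h1.some ≪≫ (plId D _).symm⟩
    choose θ hθ' using fun (i : J) (h : i ∈ O) => (⟨(hθ i h).some, trivial⟩ :
      ∃ e : pl (mp (π h) T) y ≅ pl (𝟙 _) (x i).out, True)
    let Φ : ∀ (j i : J) (u : j ⟶ i) (hj : j ∈ O) (hi : i ∈ O) (h : u ≫ π hi = π hj),
        (pl (mp u T) (x i).out ⟶ pl (𝟙 _) (x j).out) := fun j i u hj hi h =>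
      tm D T u (π hi) (π hj) h (θ i hi) (θ j hj)
    let w : ∀ m, W m := fun m =>
      if h : ∃ (hj : m.1 ∈ O) (hi : m.2.1 ∈ O), m.2.2 ≫ π hi = π hj then
        ⟨x m.1, x m.2.1, Φ m.1 m.2.1 m.2.2 h.choose h.choose_spec.choose
          h.choose_spec.choose_spec⟩
      else (hneW m).some
    have hw : ∀ (j i : J) (u : j ⟶ i) (hj : j ∈ O) (hi : i ∈ O) (h : u ≫ π hi = π hj),
        w ⟨j, i, u⟩ = ⟨x j, x i, Φ j i u hj hi h⟩ := by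
      intro j i u hj hi h
      have h' : ∃ (hj : j ∈ O) (hi : i ∈ O), u ≫ π hi = π hj := ⟨hj, hi, h⟩
      simp only [w, dif_pos h']
    refine ⟨x, w, ?_, ?_⟩
    · rintro ⟨j, i, u⟩ hm
      exact ⟨_, hw j i u (hO1 _ hm) (hO2 _ hm) (hπ' j i u hm)⟩
    · intro k j i v u hv hu hvu
      refine ⟨_, _, _, hw j i u (hO1 _ hu) (hO2 _ hu) (hπ' j i u hu),
        hw k j v (hO1 _ hv) (hO2 _ hv) (hπ' k j v hv),
        hw k i (v ≫ u) (hO1 _ hvu) (hO2 _ hvu) (hπ' k i _ hvu), ?_⟩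
      exact tm_comp D T v u (π (hO2 _ hu)) (π (hO1 _ hu)) (π (hO1 _ hv)) (hπ' j i u hu)
        (hπ' k j v hv) (hπ' k i _ hvu) (θ i _) (θ j _) (θ k _)
  choose x w hw1 hw2 using happ
  obtain ⟨𝒰, h𝒰⟩ := Ultrafilter.exists_le (Filter.atTop : Filter (Finset M))
  have hX : ∀ i, ∃ c : Q i, ∀ᶠ E in 𝒰, x E i = c := by
    intro i
    have := hfin i
    exact Ultrafilter.eventually_exists_iff.1 (Filter.Eventually.of_forall fun E => ⟨_, rfl⟩)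
  choose X hX using hX
  have hV : ∀ m, ∃ c : W m, ∀ᶠ E in 𝒰, w E m = c := by
    intro m
    have := hWfin m
    exact Ultrafilter.eventually_exists_iff.1 (Filter.Eventually.of_forall fun E => ⟨_, rfl⟩)
  choose V hV using hV
  have hmem : ∀ m : M, ∀ᶠ (E : Finset M) in (𝒰 : Filter (Finset M)), m ∈ E := fun m =>
    h𝒰 (Filter.mem_of_superset (Filter.mem_atTop ({m} : Finset M))
      (fun E hE => Finset.singleton_subset_iff.1 hE))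
  have hφ : ∀ (j i : J) (u : j ⟶ i), ∃ φ : pl (mp u T) (X i).out ⟶ pl (𝟙 _) (X j).out,
      V ⟨j, i, u⟩ = ⟨X j, X i, φ⟩ := by
    intro i j u
    obtain ⟨E, h1, h2, h3, h4⟩ := ((hX i).and ((hX j).and ((hV ⟨i, j, u⟩).and (hmem ⟨i, j, u⟩)))).exists
    obtain ⟨φ, hφ⟩ := hw1 E ⟨i, j, u⟩ h4
    rw [← h3, ← h1, ← h2]
    exact ⟨φ, hφ⟩
  choose φ hφ using hφ
  refine ⟨{ obj := fun i => (X i).out, hom := fun {j i} u => φ j i u,
            isIso := fun {j i} u => hiso j _ _ _, comp := ?_ }⟩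
  intro k j i v u
  obtain ⟨E, h1, h2, h3, h4, h5, h6, h7, h8, h9⟩ := ((hX k).and ((hX j).and ((hX i).and
    ((hV ⟨j, i, u⟩).and ((hV ⟨k, j, v⟩).and ((hV ⟨k, i, v ≫ u⟩).and
      ((hmem ⟨k, j, v⟩).and ((hmem ⟨j, i, u⟩).and (hmem ⟨k, i, v ≫ u⟩))))))))).exists
  obtain ⟨φ', ψ', χ', e1, e2, e3, e4⟩ := hw2 E k j i v u h7 h8 h9
  rw [h4, hφ] at e1
  rw [h5, hφ] at e2
  rw [h6, hφ] at e3
  have key : ∀ (c b a : _) (hc : c = X k) (hb : b = X j) (ha : a = X i)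
      (φ' : pl (mp u T) a.out ⟶ pl (𝟙 _) b.out)
      (ψ' : pl (mp v T) b.out ⟶ pl (𝟙 _) c.out)
      (χ' : pl (mp (v ≫ u) T) a.out ⟶ pl (𝟙 _) c.out),
      (⟨X j, X i, φ j i u⟩ : W ⟨j, i, u⟩) = ⟨b, a, φ'⟩ →
      (⟨X k, X j, φ k j v⟩ : W ⟨k, j, v⟩) = ⟨c, b, ψ'⟩ →
      (⟨X k, X i, φ k i (v ≫ u)⟩ : W ⟨k, i, v ≫ u⟩) = ⟨c, a, χ'⟩ →
      χ' = plHom φ' (mp v T) (mp (v ≫ u) T) (mp v T) (mp_comp v u T) (Category.comp_id _) ≫ ψ' →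
      φ k i (v ≫ u) = plHom (φ j i u) (mp v T) (mp (v ≫ u) T) (mp v T) (mp_comp v u T)
        (Category.comp_id _) ≫ φ k j v := by
    rintro c b a rfl rfl rfl φ' ψ' χ' h1 h2 h3 h4
    simp only [Sigma.mk.injEq, heq_eq_eq, true_and] at h1 h2 h3
    subst h1 h2 h3
    exact h4
  exact key _ _ _ h1 h2 h3 φ' ψ' χ' e1 e2 e3 e4

end

end Pool.Agent.Helper17.NG
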