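import Pool.Agent.Helper17.NG.Finite
import Pool.Agent.Helper17.NG.Cpt

/-!
# Profinite gerbes over a finite field have rational points
-/

set_option autoImplicit false

universe w' w v' v u' u

noncomputable section

namespace Pool.Agent.Helper17.NG

open CategoryTheory Opposite Bicategory Pseudofunctor LocallyDiscreteOpToCat AlgebraicGeometry Limits

variable {κ : Type} [Field κ]

/-- The two forms of fibre products. -/
def FP.toFibreProduct {C : Type u} [Category.{v} C] {F : Psf.{v', v, u', u} C} {T₁ T₂ : C}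
    {y₁ : Fi F T₁} {y₂ : Fi F T₂} (P : FP F y₁ y₂) : FibreProduct F y₁ y₂ :=
  ⟨P.R, P.s, P.t, P.ρ, P.universal⟩

/-- The two forms of fibre products. -/
def FP.ofFibreProduct {C : Type u} [Category.{v} C] {F : Psf.{v', v, u', u} C} {T₁ T₂ : C}
    {y₁ : Fi F T₁} {y₂ : Fi F T₂} (P : FibreProduct F y₁ y₂) : FP F y₁ y₂ :=
  ⟨P.R, P.s, P.t, P.ρ, P.universal⟩

lemma IsGroupoidStack.old {F : Psf.{v', _, u', _} (Sch κ)} (hF : IsGroupoidStack F) : GpdStk F where
  isStack := hF.isStack
  isIso := hF.isIso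

lemma IsFiniteStack.old {F : Psf.{v', _, u', _} (Sch κ)} (hF : IsFiniteStack F) : FinStk F where
  toGpdStk := hF.toIsGroupoidStack.old
  diagonal := fun T₁ T₂ y₁ y₂ => by
    obtain ⟨P, hP⟩ := hF.diagonal T₁ T₂ y₁ y₂
    exact ⟨P.toFibreProduct, hP⟩
  atlas := by
    obtain ⟨U, u, hU, h⟩ := hF.atlas
    exact ⟨U, u, hU, fun T y P => h T y (FP.ofFibreProduct P)⟩

lemma IsFiniteGerbe.old {F : Psf.{v', _, u', _} (Sch κ)} (hF : IsFiniteGerbe F) : FinGrb F where
  toFinStk := hF.toIsFiniteStack.old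
  locally_nonempty := hF.locally_nonempty
  locally_isomorphic := hF.locally_isomorphic

lemma finite_hom_pt [Finite κ] {R : Sch κ} (hR : IsFinite R.hom) : Finite (pt κ ⟶ R) := by
  have h1 := finite_hom hR κ
  have h2 : (sp κ κ).hom = 𝟙 _ := by
    change Spec.map (CommRingCat.ofHom (algebraMap κ κ)) = 𝟙 _
    rw [Algebra.algebraMap_self]
    exact Spec.map_id _
  let f : sp κ κ ⟶ pt κ := Over.homMk (𝟙 _) (by
    change 𝟙 _ ≫ 𝟙 _ = (sp κ κ).hom
    rw [h2, Category.id_comp])
  refine Finite.of_injective (fun g : pt κ ⟶ R => f ≫ g) (fun g g' h => ?_)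
  apply Over.OverMorphism.ext
  have h3 := congrArg (fun g => g.left) h
  simpa [f] using h3

lemma finite_hom_obj [Finite κ] {F : Fib.{v', u'} κ} (hF : FinStk F)
    (x y : F.obj (.mk (op (pt κ)))) : Finite (x ⟶ y) := by
  have hfpt : IsFinite (pt κ).hom := inferInstanceAs (IsFinite (𝟙 _))
  obtain ⟨P, hP⟩ := hF.finite_R (T₁ := pt κ) (T₂ := pt κ) x y
  have h2 := finite_hom_pt hP
  have h1 : Finite (pb (𝟙 (pt κ)) x ⟶ pb (𝟙 (pt κ)) y) :=
    Finite.of_injective (fun φ => P.lift _ _ φ) (fun φ ψ h => P.eq_of_lift_eq _ _ φ ψ h)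
  have h3 : Finite ((F.presheafHom x y).obj (op (Over.mk (𝟙 (pt κ))))) := h1
  exact Finite.of_equiv _ (presheafHomObjHomEquiv (F := F) (M := x) (N := y)).symm

/-- A finite gerbe over a finite field has a rational point. -/
theorem IsFiniteGerbe.nonempty [Finite κ] {F : Psf.{v', _, u', _} (Sch κ)} (hF : IsFiniteGerbe F) :
    Nonempty (Fi F (pt κ)) := by
  have := Fintype.ofFinite κ
  exact hF.old.nonempty_pt

/-- A finite gerbe over a finite field has only finitely many rational points up to isomorphism. -/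
theorem IsFiniteGerbe.finite_classes [Finite κ] {F : Psf.{v', _, u', _} (Sch κ)}
    (hF : IsFiniteGerbe F) : Finite (classes F) := by
  have := Fintype.ofFinite κ
  exact hF.old.finite_classes

theorem IsFiniteStack.finite_hom [Finite κ] {F : Psf.{v', _, u', _} (Sch κ)} (hF : IsFiniteStack F)
    (x y : Fi F (pt κ)) : Finite (x ⟶ y) :=
  finite_hom_obj hF.old x y

/-- A profinite gerbe over a finite field has a rational point. -/
theorem ProfiniteGerbe.nonempty [Finite κ] (G : ProfiniteGerbe.{w', w, v', u'} κ) :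
    Nonempty (Fi G.gerbe (pt κ)) := by
  obtain ⟨s⟩ := exists_compatible G.D (pt κ)
    (fun j x y f => (G.finite j).isIso (pt κ) x y f)
    (fun j => (G.finite j).nonempty)
    (fun j => (G.finite j).finite_classes)
    (fun j x y => (G.finite j).toIsFiniteStack.finite_hom x y)
  obtain ⟨y, -⟩ := G.limit.obj (pt κ) s
  exact ⟨y⟩

/-- If `X` has no rational point, the map `X(κ) ⟶ [G(κ)]` is not surjective. -/
theorem ProfiniteGerbe.not_surjective [Finite κ] (G : ProfiniteGerbe.{w', w, v', u'} κ) (X : Sch κ)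
    (hX : IsEmpty (pt κ ⟶ X)) (π : Fi G.gerbe X) : ¬ Function.Surjective (sectionMap π) := by
  intro h
  obtain ⟨ξ⟩ := G.nonempty
  obtain ⟨x, -⟩ := h (Quotient.mk _ ξ)
  exact hX.elim x

end Pool.Agent.Helper17.NG
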