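import Mathlib

/-!
# Calculus of pull-backs in a fibered category

`pb f M` is the pull-back `f^* M`. A morphism `a^* M ⟶ b^* N` can be pulled back along `g` to a morphism
`(g ≫ a)^* M ⟶ (g ≫ b)^* N` (`pullHom`, from Mathlib).
-/

set_option autoImplicit false

universe v' v u' u

namespace Pool.Agent.Helper17.NG

open CategoryTheory Opposite Bicategory Pseudofunctor LocallyDiscreteOpToCat

variable {C : Type u} [Category.{v} C] {F : LocallyDiscrete Cᵒᵖ ⥤ᵖ Cat.{v', u'}}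

/-- The pull-back `f^* M` of an object `M` over `X` along `f : Y ⟶ X`. -/
abbrev pb {Y X : C} (f : Y ⟶ X) (M : F.obj (.mk (op X))) : F.obj (.mk (op Y)) :=
  (F.map f.op.toLoc).toFunctor.obj M

set_option backward.isDefEq.respectTransparency false in
lemma pullHom_comp ⦃X₁ X₂ X₃ : C⦄ {M₁ : F.obj (.mk (op X₁))} {M₂ : F.obj (.mk (op X₂))}
    {M₃ : F.obj (.mk (op X₃))} ⦃Y : C⦄ {f₁ : Y ⟶ X₁} {f₂ : Y ⟶ X₂} {f₃ : Y ⟶ X₃}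
    (φ : pb f₁ M₁ ⟶ pb f₂ M₂) (ψ : pb f₂ M₂ ⟶ pb f₃ M₃) ⦃Y' : C⦄ (g : Y' ⟶ Y)
    (gf₁ : Y' ⟶ X₁) (gf₂ : Y' ⟶ X₂) (gf₃ : Y' ⟶ X₃)
    (h₁ : g ≫ f₁ = gf₁) (h₂ : g ≫ f₂ = gf₂) (h₃ : g ≫ f₃ = gf₃) :
    pullHom (φ ≫ ψ) g gf₁ gf₃ h₁ h₃ = pullHom φ g gf₁ gf₂ h₁ h₂ ≫ pullHom ψ g gf₂ gf₃ h₂ h₃ := by
  simp [pullHom, ← reassoc_of% Cat.Hom₂.comp_app]

set_option backward.isDefEq.respectTransparency false in
lemma pullHom_one ⦃X₁ : C⦄ (M₁ : F.obj (.mk (op X₁))) ⦃Y : C⦄ (f₁ : Y ⟶ X₁)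
    ⦃Y' : C⦄ (g : Y' ⟶ Y) (gf₁ : Y' ⟶ X₁) (h₁ : g ≫ f₁ = gf₁) :
    pullHom (𝟙 (pb f₁ M₁)) g gf₁ gf₁ h₁ h₁ = 𝟙 _ := by
  simp [pullHom, ← Cat.Hom₂.comp_app]

/-- A morphism `c^* M ⟶ d^* N`, where `c = a ≫ x` and `d = b ≫ y`, as a morphism between the two-step
pull-backs. -/
def cj {Y X X' U U' : C} {M : F.obj (.mk (op U))} {N : F.obj (.mk (op U'))}
    (x : X ⟶ U) (y : X' ⟶ U') (a : Y ⟶ X) (b : Y ⟶ X') {c : Y ⟶ U} {d : Y ⟶ U'}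
    (hc : a ≫ x = c) (hd : b ≫ y = d) (φ : pb c M ⟶ pb d N) :
    pb a (pb x M) ⟶ pb b (pb y N) :=
  (F.mapComp' x.op.toLoc a.op.toLoc c.op.toLoc (by subst hc; simp)).inv.toNatTrans.app M ≫ φ ≫
    (F.mapComp' y.op.toLoc b.op.toLoc d.op.toLoc (by subst hd; simp)).hom.toNatTrans.app N

set_option backward.isDefEq.respectTransparency false in
lemma pullHom_cj {Y Y' X X' U U' : C} {M : F.obj (.mk (op U))} {N : F.obj (.mk (op U'))}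
    (x : X ⟶ U) (y : X' ⟶ U') (a : Y ⟶ X) (b : Y ⟶ X') {c : Y ⟶ U} {d : Y ⟶ U'}
    (hc : a ≫ x = c) (hd : b ≫ y = d) (φ : pb c M ⟶ pb d N) (g : Y' ⟶ Y)
    (ga : Y' ⟶ X) (gb : Y' ⟶ X') (hga : g ≫ a = ga) (hgb : g ≫ b = gb) {gc : Y' ⟶ U} {gd : Y' ⟶ U'}
    (hgc : g ≫ c = gc) (hgd : g ≫ d = gd) (hc' : ga ≫ x = gc) (hd' : gb ≫ y = gd) :
    pullHom (cj x y a b hc hd φ) g ga gb hga hgb =
      cj x y ga gb hc' hd' (pullHom φ g gc gd hgc hgd) := by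
  dsimp [pullHom, cj]
  simp only [Functor.map_comp, Category.assoc]
  rw [F.mapComp'₀₁₃_inv_comp_mapComp'₀₂₃_hom_app_assoc _ _ _ _ _ _ _ _ (by cat_disch),
      mapComp'₀₂₃_inv_comp_mapComp'₀₁₃_hom_app _ _ _ _ _ _ _ _ _ (by cat_disch)]

set_option backward.isDefEq.respectTransparency false in
lemma cj_one {Y X U : C} {M : F.obj (.mk (op U))} (x : X ⟶ U) (a : Y ⟶ X) {c : Y ⟶ U}
    (hc : a ≫ x = c) : cj x x a a hc hc (𝟙 (pb c M)) = 𝟙 _ := by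
  simp [cj, ← Cat.Hom₂.comp_app]

set_option backward.isDefEq.respectTransparency false in
lemma cj_comp {Y X X' X'' U U' U'' : C} {M : F.obj (.mk (op U))} {N : F.obj (.mk (op U'))}
    {K : F.obj (.mk (op U''))}
    (x : X ⟶ U) (y : X' ⟶ U') (z : X'' ⟶ U'') (a : Y ⟶ X) (b : Y ⟶ X') (b' : Y ⟶ X'')
    {c : Y ⟶ U} {d : Y ⟶ U'} {e : Y ⟶ U''}
    (hc : a ≫ x = c) (hd : b ≫ y = d) (he : b' ≫ z = e) (φ : pb c M ⟶ pb d N) (ψ : pb d N ⟶ pb e K) :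
    cj x z a b' hc he (φ ≫ ψ) = cj x y a b hc hd φ ≫ cj y z b b' hd he ψ := by
  simp [cj, ← reassoc_of% Cat.Hom₂.comp_app]

end Pool.Agent.Helper17.NG
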