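import Pool.Agent.Helper17.NG.Aff

set_option autoImplicit false

universe v' v u' u

noncomputable section

namespace Pool.Agent.Helper17.NG

open CategoryTheory Opposite AlgebraicGeometry Limits TopologicalSpace

variable {κ : Type} [Field κ] [Fintype κ]

/-- The `q`-power Frobenius morphism of `Spec L`. -/
def fro (κ : Type) [Field κ] [Fintype κ] (L : Type) [CommRing L] [Algebra κ L] :
    sp κ L ⟶ sp κ L := spMap (FiniteField.frobeniusAlgHom κ L)

lemma gm_it {L : Type} [CommRing L] [Algebra κ L] {Y : Sch κ} (g : Y ⟶ sp κ L) (j : ℕ) (x : L) :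
    gm (g ≫ it (fro κ L) j) x = gm g (x ^ (Fintype.card κ ^ j)) := by
  induction j generalizing x with
  | zero => simp [it]
  | succ j ih =>
    rw [it, ← Category.assoc]
    simp only [fro] at ih ⊢
    rw [gm_comp_spMap, ih]
    congr 1
    rw [FiniteField.frobeniusAlgHom_apply, ← pow_mul]
    congr 1
    ring

lemma ringHom_eq_of_gen {K B : Type*} [Field K] [Finite K] [CommRing B] (θ : Kˣ)
    (hθ : ∀ x : Kˣ, x ∈ Subgroup.zpowers θ) (φ ψ : K →+* B) (h : φ θ = ψ θ) (x : K) :
    φ x = ψ x := by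
  by_cases hx : x = 0
  · rw [hx, map_zero, map_zero]
  · have h1 := hθ (Units.mk0 x hx)
    rw [← mem_powers_iff_mem_zpowers] at h1
    obtain ⟨k, hk⟩ := h1
    have h2 : x = (θ : K) ^ k := by
      have := congrArg Units.val hk
      simpa using this.symm
    rw [h2, map_pow, map_pow, h]

theorem cov (K : Type) [Field K] [Algebra κ K] [Finite K] [Module.Finite κ K]
    (Y : Sch κ) (a b : Y ⟶ sp κ K) : ∃ R ∈ fpqc κ Y, ∀ (Z : Sch κ) (h : Z ⟶ Y), R h →
      ∃ j : ℕ, (h ≫ a) ≫ it (fro κ K) j = h ≫ b := by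
  classical
  obtain ⟨θ, hθ⟩ := IsCyclic.exists_generator (α := Kˣ)
  let s : Gal(K/κ) → Γ(Y.left, ⊤) := fun g =>
    ∏ g' ∈ Finset.univ.erase g, (gm b (θ : K) - gm a (g' (θ : K)))
  have hprod : ∏ g : Gal(K/κ), (gm b (θ : K) - gm a (g (θ : K))) = 0 := by
    obtain ⟨P, hP⟩ := (Polynomial.mem_lifts _).1
      (Algebra.IsInvariant.charpoly_mem_lifts κ K Gal(K/κ) (θ : K))
    have h1 : ((MulSemiringAction.charpoly Gal(K/κ) (θ : K)).map (gm a)).eval (gm b (θ : K)) =
        ∏ g : Gal(K/κ), (gm b (θ : K) - gm a (g (θ : K))) := by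
      rw [MulSemiringAction.charpoly_eq, Polynomial.map_prod, Polynomial.eval_prod]
      apply Finset.prod_congr rfl
      intro g _
      simp
    have h2 : (gm a).comp (algebraMap κ K) = (gm b).comp (algebraMap κ K) := by
      ext c
      simp only [RingHom.comp_apply, gm_algebraMap]
    rw [← h1, ← hP, Polynomial.map_map, h2, ← Polynomial.map_map, hP, Polynomial.eval_map,
      Polynomial.eval₂_hom, MulSemiringAction.eval_charpoly, map_zero]
  have hs : ∀ g, s g * (gm b (θ : K) - gm a (g (θ : K))) = 0 := by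
    intro g
    rw [← hprod, mul_comm]
    exact Finset.mul_prod_erase Finset.univ (fun g : Gal(K/κ) => gm b (θ : K) - gm a (g (θ : K)))
      (Finset.mem_univ g)
  have hcover : IsOpenCover (fun g => Y.left.basicOpen (s g)) := by
    rw [IsOpenCover, eq_top_iff]
    intro y _
    rw [Opens.mem_iSup]
    let ev : Γ(Y.left, ⊤) →+* Y.left.residueField y := (Y.left.evaluation ⊤ y trivial).hom
    have h1 : ∏ g : Gal(K/κ), ev (gm b (θ : K) - gm a (g (θ : K))) = 0 := by
      rw [← map_prod, hprod, map_zero]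
    obtain ⟨g, -, hg⟩ := Finset.prod_eq_zero_iff.1 h1
    refine ⟨g, ?_⟩
    rw [← Scheme.evaluation_ne_zero_iff_mem_basicOpen Y.left y (U := ⊤) trivial]
    change ev (s g) ≠ 0
    simp only [s]
    rw [map_prod, Finset.prod_ne_zero_iff]
    intro g' hg' h0
    have hne : g' ≠ g := (Finset.mem_erase.1 hg').1
    have h2 : (ev.comp (gm a)) (g' (θ : K)) = (ev.comp (gm a)) (g (θ : K)) := by
      rw [map_sub, sub_eq_zero] at hg h0
      exact h0.symm.trans hg
    have h3 : g' (θ : K) = g (θ : K) := (ev.comp (gm a)).injective h2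
    apply hne
    ext x
    exact ringHom_eq_of_gen θ hθ (g' : K →+* K) (g : K →+* K) h3 x
  let R : Sieve Y :=
    { arrows := fun Z h => ∃ j : ℕ, (h ≫ a) ≫ it (fro κ K) j = h ≫ b
      downward_closed := by
        rintro Z W h ⟨j, hj⟩ g
        exact ⟨j, by rw [Category.assoc, Category.assoc, Category.assoc, ← Category.assoc h, hj]⟩ }
  have hp : ∃ p : ℕ, p.Prime ∧ CharP κ p := by
    obtain ⟨p, hp⟩ := CharP.exists κ
    exact ⟨p, CharP.char_is_prime κ p, hp⟩
  obtain ⟨p, hp1, hp2⟩ := hp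
  have := Fact.mk hp1
  have hR : ∀ g, R (Over.homMk (U := Over.mk ((Y.left.basicOpen (s g)).ι ≫ Y.hom))
      (Y.left.basicOpen (s g)).ι rfl) := by
    intro g
    obtain ⟨j, hj⟩ := FiniteField.exists_forall_apply_eq_pow κ p K g
    let U : Y.left.Opens := Y.left.basicOpen (s g)
    let Z : Sch κ := Over.mk (U.ι ≫ Y.hom)
    let h : Z ⟶ Y := Over.homMk U.ι rfl
    refine ⟨j, ?_⟩
    change (h ≫ a) ≫ it (fro κ K) j = h ≫ b
    apply gm_ext
    intro x
    rw [gm_it]
    have key : ∀ y : K, gm (h ≫ a) (g y) = gm (h ≫ b) y := by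
      intro y
      refine ringHom_eq_of_gen θ hθ ((gm (h ≫ a)).comp (g : K →+* K)) (gm (h ≫ b)) ?_ y
      change gm (h ≫ a) (g (θ : K)) = gm (h ≫ b) (θ : K)
      rw [gm_comp, gm_comp]
      have h1 := congrArg h.left.appTop.hom (hs g)
      rw [map_mul, map_zero, map_sub] at h1
      have h2 : IsUnit (h.left.appTop.hom (s g)) := by
        have h3 : Z.left.basicOpen (h.left.appTop.hom (s g)) = ⊤ :=
          (Scheme.preimage_basicOpen_top h.left (s g)).symm.trans U.ι_preimage_self
        apply RingedSpace.isUnit_of_isUnit_germ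
        intro x hx
        have h4 : x ∈ Z.left.basicOpen (h.left.appTop.hom (s g)) := by
          rw [h3]
          trivial
        exact (Scheme.mem_basicOpen_top _ _ _).1 h4
      rw [h2.mul_right_eq_zero, sub_eq_zero] at h1
      exact h1.symm
    rw [← key x, hj x, Nat.card_eq_fintype_card]
  refine ⟨R, ?_, fun Z h hh => hh⟩
  rw [GrothendieckTopology.mem_over_iff]
  apply Scheme.zariskiTopology_le_fpqcTopology
  refine Scheme.zariskiTopology.superset_covering ?_
    (Y.left.openCoverOfIsOpenCover _ hcover).mem_grothendieckTopology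
  rw [Sieve.generate_le_iff]
  rintro _ _ ⟨g⟩
  rw [Sieve.overEquiv_iff]
  exact hR g

end Pool.Agent.Helper17.NG
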