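import Pool.Agent.Helper17.NG.Calc

set_option autoImplicit false

universe v' v u' u

namespace Pool.Agent.Helper17.NG

open CategoryTheory Opposite Bicategory Pseudofunctor LocallyDiscreteOpToCat

variable {C : Type u} [Category.{v} C]

/-- The fibre product `T₁ ×_F T₂` of two objects `y₁` over `T₁` and `y₂` over `T₂` of a category
`F` fibered in groupoids, if it is representable: an object `R` with projections `s`, `t` and a morphism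
`ρ : s^* y₁ ⟶ t^* y₂` such that every morphism `a^* y₁ ⟶ b^* y₂` over `Y` is the pull-back of
`ρ` under exactly one `r : Y ⟶ R` with `r ≫ s = a`, `r ≫ t = b`. -/
structure FibreProduct (F : LocallyDiscrete Cᵒᵖ ⥤ᵖ Cat.{v', u'}) {T₁ T₂ : C}
    (y₁ : F.obj (.mk (op T₁))) (y₂ : F.obj (.mk (op T₂))) where
  R : C
  s : R ⟶ T₁
  t : R ⟶ T₂
  ρ : pb s y₁ ⟶ pb t y₂
  universal : ∀ (Y : C) (a : Y ⟶ T₁) (b : Y ⟶ T₂) (φ : pb a y₁ ⟶ pb b y₂),
    ∃! r : Y ⟶ R, ∃ (ha : r ≫ s = a) (hb : r ≫ t = b), pullHom ρ r a b ha hb = φ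

namespace FibreProduct

variable {F : LocallyDiscrete Cᵒᵖ ⥤ᵖ Cat.{v', u'}} {T₁ T₂ : C}
    {y₁ : F.obj (.mk (op T₁))} {y₂ : F.obj (.mk (op T₂))} (P : FibreProduct F y₁ y₂)

/-- The morphism to `R` classifying `φ`. -/
noncomputable def lift {Y : C} (a : Y ⟶ T₁) (b : Y ⟶ T₂) (φ : pb a y₁ ⟶ pb b y₂) : Y ⟶ P.R :=
  (P.universal Y a b φ).choose

lemma lift_s {Y : C} (a : Y ⟶ T₁) (b : Y ⟶ T₂) (φ : pb a y₁ ⟶ pb b y₂) :
    P.lift a b φ ≫ P.s = a := (P.universal Y a b φ).choose_spec.1.1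

lemma lift_t {Y : C} (a : Y ⟶ T₁) (b : Y ⟶ T₂) (φ : pb a y₁ ⟶ pb b y₂) :
    P.lift a b φ ≫ P.t = b := (P.universal Y a b φ).choose_spec.1.2.1

lemma lift_ρ {Y : C} (a : Y ⟶ T₁) (b : Y ⟶ T₂) (φ : pb a y₁ ⟶ pb b y₂) :
    pullHom P.ρ (P.lift a b φ) a b (P.lift_s a b φ) (P.lift_t a b φ) = φ :=
  (P.universal Y a b φ).choose_spec.1.2.2

lemma lift_unique {Y : C} (a : Y ⟶ T₁) (b : Y ⟶ T₂) (φ : pb a y₁ ⟶ pb b y₂) (r : Y ⟶ P.R)
    (ha : r ≫ P.s = a) (hb : r ≫ P.t = b) (h : pullHom P.ρ r a b ha hb = φ) :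
    r = P.lift a b φ :=
  (P.universal Y a b φ).choose_spec.2 r ⟨ha, hb, h⟩

lemma comp_lift {Y Y' : C} (a : Y ⟶ T₁) (b : Y ⟶ T₂) (φ : pb a y₁ ⟶ pb b y₂) (g : Y' ⟶ Y)
    (ga : Y' ⟶ T₁) (gb : Y' ⟶ T₂) (hga : g ≫ a = ga) (hgb : g ≫ b = gb) :
    g ≫ P.lift a b φ = P.lift ga gb (pullHom φ g ga gb hga hgb) := by
  apply P.lift_unique _ _ _ _ (by rw [Category.assoc, P.lift_s, hga])
    (by rw [Category.assoc, P.lift_t, hgb])
  conv_rhs => rw [← P.lift_ρ a b φ]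
  rw [pullHom_pullHom]

lemma eq_of_lift_eq {Y : C} (a : Y ⟶ T₁) (b : Y ⟶ T₂) (φ ψ : pb a y₁ ⟶ pb b y₂)
    (h : P.lift a b φ = P.lift a b ψ) : φ = ψ := by
  rw [← P.lift_ρ a b φ, ← P.lift_ρ a b ψ]
  congr 1

/-- Two morphisms which agree on a covering sieve are equal. -/
lemma eq_of_cover {J : GrothendieckTopology C} [J.Subcanonical] (P : FibreProduct F y₁ y₂)
    {Y : C} (a : Y ⟶ T₁) (b : Y ⟶ T₂) (φ ψ : pb a y₁ ⟶ pb b y₂) (R : Sieve Y) (hR : R ∈ J Y)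
    (h : ∀ ⦃Z : C⦄ (g : Z ⟶ Y), R g →
      pullHom φ g (g ≫ a) (g ≫ b) rfl rfl = pullHom ψ g (g ≫ a) (g ≫ b) rfl rfl) : φ = ψ := by
  apply P.eq_of_lift_eq a b
  have hs := (GrothendieckTopology.Subcanonical.isSheaf_of_isRepresentable (J := J)
    (yoneda.obj P.R)) R hR
  apply hs.isSeparatedFor.ext
  intro Z g hg
  change g ≫ P.lift a b φ = g ≫ P.lift a b ψ
  rw [P.comp_lift a b φ g _ _ rfl rfl, P.comp_lift a b ψ g _ _ rfl rfl, h g hg]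

end FibreProduct

/-- Iterates of an endomorphism. -/
def it {X : C} (σ : X ⟶ X) : ℕ → (X ⟶ X)
  | 0 => 𝟙 X
  | j + 1 => it σ j ≫ σ

lemma it_add {X : C} (σ : X ⟶ X) (i j : ℕ) : it σ (i + j) = it σ i ≫ it σ j := by
  induction j with
  | zero => simp [it]
  | succ j ih => rw [← Nat.add_assoc, it, it, ih, Category.assoc]

section

variable {F : LocallyDiscrete Cᵒᵖ ⥤ᵖ Cat.{v', u'}} {U X : C} {M : F.obj (.mk (op U))}
  (x : X ⟶ U) (σ : X ⟶ X) (α : pb x M ⟶ pb (σ ≫ x) M)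

/-- The `j`-fold composition of the semilinear morphism `α`, pulled back to `Y`. -/
def ca {Y : C} (a : Y ⟶ X) : ∀ (j : ℕ) (c d : Y ⟶ U), a ≫ x = c → a ≫ it σ j ≫ x = d →
    (pb c M ⟶ pb d M)
  | 0, c, d, hc, hd => pullHom (𝟙 (pb c M)) (𝟙 Y) c d (Category.id_comp c)
      (by rw [Category.id_comp, ← hc, ← hd, it, Category.id_comp])
  | j + 1, c, d, hc, hd => ca a j c (a ≫ it σ j ≫ x) hc rfl ≫
      pullHom α (a ≫ it σ j) (a ≫ it σ j ≫ x) d (Category.assoc _ _ _)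
        (by rw [← hd, it]; simp only [Category.assoc])

lemma ca_pull {Y Y' : C} (a : Y ⟶ X) (g : Y' ⟶ Y) (ga : Y' ⟶ X) (hga : g ≫ a = ga) (j : ℕ) :
    ∀ (c d : Y ⟶ U) (hc : a ≫ x = c) (hd : a ≫ it σ j ≫ x = d) (gc gd : Y' ⟶ U)
      (hgc : g ≫ c = gc) (hgd : g ≫ d = gd) (hc' : ga ≫ x = gc) (hd' : ga ≫ it σ j ≫ x = gd),
    pullHom (ca x σ α a j c d hc hd) g gc gd hgc hgd = ca x σ α ga j gc gd hc' hd' := by
  induction j with
  | zero =>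
    intro c d hc hd gc gd hgc hgd hc' hd'
    simp only [ca]
    rw [pullHom_pullHom]
    obtain rfl : c = d := by rw [← hc, ← hd, it, Category.id_comp]
    obtain rfl : gc = gd := by rw [← hgc, ← hgd]
    rw [pullHom_one, pullHom_one]
  | succ j ih =>
    intro c d hc hd gc gd hgc hgd hc' hd'
    simp only [ca]
    rw [pullHom_comp _ _ g gc (ga ≫ it σ j ≫ x) gd hgc (by rw [← hga]; simp only [Category.assoc])
      hgd, ih c (a ≫ it σ j ≫ x) hc rfl gc (ga ≫ it σ j ≫ x) hgc _ hc' rfl, pullHom_pullHom]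
    subst hga
    simp only [Category.assoc]

omit F M in
variable {x σ} in
lemma pull_congr {F : LocallyDiscrete Cᵒᵖ ⥤ᵖ Cat.{v', u'}} {M : F.obj (.mk (op U))}
    (α : pb x M ⟶ pb (σ ≫ x) M) {Y : C} {a₁ a₂ : Y ⟶ X} (h : a₁ = a₂) (m₁ m₂ e : Y ⟶ U)
    (h₁ : a₁ ≫ x = m₁) (h₂ : a₂ ≫ x = m₂) (k₁ : a₁ ≫ σ ≫ x = e) (k₂ : a₂ ≫ σ ≫ x = e) :
    HEq (pullHom α a₁ m₁ e h₁ k₁) (pullHom α a₂ m₂ e h₂ k₂) := by
  subst h h₁ h₂
  rfl

omit x σ α in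
lemma comp_congr {Y : C} {d m m' e : Y ⟶ U} (h : m = m') (f : pb d M ⟶ pb m M)
    (f' : pb d M ⟶ pb m' M) (hf : HEq f f') (g : pb m M ⟶ pb e M) (g' : pb m' M ⟶ pb e M)
    (hg : HEq g g') : f ≫ g = f' ≫ g' := by
  subst h
  rw [eq_of_heq hf, eq_of_heq hg]

lemma ca_congr {Y : C} (a : Y ⟶ X) (j : ℕ) {c d d' : Y ⟶ U} (h : d = d') (hc : a ≫ x = c)
    (hd : a ≫ it σ j ≫ x = d) (hd' : a ≫ it σ j ≫ x = d') :
    HEq (ca x σ α a j c d hc hd) (ca x σ α a j c d' hc hd') := by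
  subst h
  rfl

lemma ca_add {Y : C} (a : Y ⟶ X) (i j : ℕ) (b : Y ⟶ X) (hb : a ≫ it σ i = b) :
    ∀ (c d e : Y ⟶ U) (hc : a ≫ x = c) (hd : a ≫ it σ i ≫ x = d)
      (he : a ≫ it σ (i + j) ≫ x = e) (hd' : b ≫ x = d) (he' : b ≫ it σ j ≫ x = e),
    ca x σ α a (i + j) c e hc he = ca x σ α a i c d hc hd ≫ ca x σ α b j d e hd' he' := by
  induction j with
  | zero =>
    intro c d e hc hd he hd' he'
    obtain rfl : d = e := by rw [← hd', ← he', it, Category.id_comp]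
    simp only [ca, Nat.add_zero]
    rw [pullHom_one, Category.comp_id]
  | succ j ih =>
    intro c d e hc hd he hd' he'
    subst hb
    simp only [← Nat.add_assoc]
    simp only [ca]
    rw [ih c d (a ≫ it σ (i + j) ≫ x) hc hd rfl hd' (by rw [it_add]; simp only [Category.assoc]),
      Category.assoc]
    congr 1
    have key : a ≫ it σ (i + j) = (a ≫ it σ i) ≫ it σ j := by rw [it_add, Category.assoc]
    have key2 : a ≫ it σ (i + j) ≫ x = (a ≫ it σ i) ≫ it σ j ≫ x := by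
      rw [← Category.assoc, key, Category.assoc]
    exact comp_congr key2 _ _ (ca_congr _ _ _ _ _ key2 _ _ _) _ _
      (pull_congr α key _ _ _ _ _ _ _)

end

end Pool.Agent.Helper17.NG
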