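import Pool.Agent.Helper17.NG.Cyc

set_option autoImplicit false

universe v' v u' u

namespace Pool.Agent.Helper17.NG

open CategoryTheory Opposite Bicategory Pseudofunctor LocallyDiscreteOpToCat

variable {C : Type u} [Category.{v} C]

/-- The data for the descent of an object along a cyclic covering `f : X ⟶ S` with generator `σ`. -/
structure CycData (J : GrothendieckTopology C) (F : LocallyDiscrete Cᵒᵖ ⥤ᵖ Cat.{v', u'})
    (S : C) where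
  X : C
  f : X ⟶ S
  σ : X ⟶ X
  hσ : σ ≫ f = f
  n : ℕ
  hn : it σ n = 𝟙 X
  cov : ∀ (Y : C) (a b : Y ⟶ X), a ≫ f = b ≫ f → ∃ R ∈ J Y, ∀ (Z : C) (h : Z ⟶ Y), R h →
    ∃ j : ℕ, (h ≫ a) ≫ it σ j = h ≫ b
  emp : ∀ (Y : C) (a : Y ⟶ X) (i j : ℕ), a ≫ it σ i = a ≫ it σ j →
    i ≡ j [MOD n] ∨ ∀ (W : C) (r r' : Y ⟶ W), r = r'
  U : C
  M : F.obj (.mk (op U))
  P : FibreProduct F M M
  x : X ⟶ U
  α : pb x M ⟶ pb (σ ≫ x) M
  hα : ca x σ α (𝟙 X) n x x (Category.id_comp x)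
    (by rw [hn, Category.id_comp, Category.id_comp]) = 𝟙 _

namespace CycData

variable {J : GrothendieckTopology C} {F : LocallyDiscrete Cᵒᵖ ⥤ᵖ Cat.{v', u'}}
    {S : C} (D : CycData J F S)

lemma ca_n {Y : C} (a : Y ⟶ D.X) (c : Y ⟶ D.U) (hc : a ≫ D.x = c)
    (hd : a ≫ it D.σ D.n ≫ D.x = c) : ca D.x D.σ D.α a D.n c c hc hd = 𝟙 _ := by
  rw [← ca_pull D.x D.σ D.α (𝟙 D.X) a a (Category.comp_id a) D.n D.x D.x (Category.id_comp _)
    (by rw [D.hn, Category.id_comp, Category.id_comp]) c c hc hc hc hd, D.hα, pullHom_one]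

lemma ca_mul {Y : C} (a : Y ⟶ D.X) (i k : ℕ) (c d : Y ⟶ D.U) (hc : a ≫ D.x = c)
    (hd : a ≫ it D.σ i ≫ D.x = d) (hd' : a ≫ it D.σ (i + k * D.n) ≫ D.x = d) :
    ca D.x D.σ D.α a (i + k * D.n) c d hc hd' = ca D.x D.σ D.α a i c d hc hd := by
  induction k with
  | zero => simp only [Nat.zero_mul, Nat.add_zero]
  | succ k ih =>
    have e : i + (k + 1) * D.n = (i + k * D.n) + D.n := by ring
    have key : ∀ m, m = (i + k * D.n) + D.n → ∀ (hm : a ≫ it D.σ m ≫ D.x = d),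
        ca D.x D.σ D.α a m c d hc hm = ca D.x D.σ D.α a i c d hc hd := by
      rintro m rfl hm
      have h1 : a ≫ it D.σ (i + k * D.n) ≫ D.x = d := by
        rw [← hm, it_add D.σ (i + k * D.n) D.n, D.hn, Category.comp_id]
      rw [ca_add D.x D.σ D.α a (i + k * D.n) D.n (a ≫ it D.σ (i + k * D.n)) rfl c d d hc h1 hm
        (by rw [Category.assoc, h1]) (by rw [D.hn, Category.id_comp, Category.assoc, h1]), ih h1,
        D.ca_n, Category.comp_id]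
    exact key _ e hd'

lemma ca_mod {Y : C} (a : Y ⟶ D.X) (i j : ℕ) (h : i ≡ j [MOD D.n]) (c d : Y ⟶ D.U)
    (hc : a ≫ D.x = c) (hd : a ≫ it D.σ i ≫ D.x = d) (hd' : a ≫ it D.σ j ≫ D.x = d) :
    ca D.x D.σ D.α a i c d hc hd = ca D.x D.σ D.α a j c d hc hd' := by
  wlog hij : i ≤ j generalizing i j
  · exact (this j i h.symm hd' hd (by omega)).symm
  obtain ⟨k, hk⟩ := (Nat.modEq_iff_dvd' hij).1 h
  obtain rfl : j = i + k * D.n := by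
    have := Nat.sub_add_cancel hij
    rw [hk] at this
    rw [← this]
    ring
  exact (D.ca_mul a i k c d hc hd hd').symm

/-- A morphism between pull-backs of `M` is good if it is a power of `α`. -/
def Good {Y : C} (a b : Y ⟶ D.X) (φ : pb (a ≫ D.x) D.M ⟶ pb (b ≫ D.x) D.M) : Prop :=
  ∃ (j : ℕ) (h : a ≫ it D.σ j = b),
    φ = ca D.x D.σ D.α a j (a ≫ D.x) (b ≫ D.x) rfl (by rw [← Category.assoc, h])

lemma good_one {Y : C} (a : Y ⟶ D.X) : D.Good a a (𝟙 _) :=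
  ⟨0, Category.comp_id a, by simp only [ca]; rw [pullHom_one]⟩

lemma good_pull {Y Y' : C} {a b : Y ⟶ D.X} {φ : pb (a ≫ D.x) D.M ⟶ pb (b ≫ D.x) D.M}
    (h : D.Good a b φ) (g : Y' ⟶ Y) (ga gb : Y' ⟶ D.X) (ha : g ≫ a = ga) (hb : g ≫ b = gb) :
    D.Good ga gb (pullHom φ g (ga ≫ D.x) (gb ≫ D.x) (by rw [← ha, Category.assoc])
      (by rw [← hb, Category.assoc])) := by
  obtain ⟨j, hj, rfl⟩ := h
  refine ⟨j, by rw [← ha, ← hb, ← hj, Category.assoc], ?_⟩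
  exact ca_pull D.x D.σ D.α a g ga ha j _ _ _ _ _ _ _ _ _ _

lemma good_comp {Y : C} {a b c : Y ⟶ D.X} {φ : pb (a ≫ D.x) D.M ⟶ pb (b ≫ D.x) D.M}
    {ψ : pb (b ≫ D.x) D.M ⟶ pb (c ≫ D.x) D.M} (h : D.Good a b φ) (h' : D.Good b c ψ) :
    D.Good a c (φ ≫ ψ) := by
  obtain ⟨i, hi, rfl⟩ := h
  obtain ⟨j, hj, rfl⟩ := h'
  refine ⟨i + j, by rw [it_add, ← Category.assoc, hi, hj], ?_⟩
  exact (ca_add D.x D.σ D.α a i j b hi _ _ _ _ _ _ _ _).symm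

lemma good_unique {Y : C} {a b : Y ⟶ D.X} {φ ψ : pb (a ≫ D.x) D.M ⟶ pb (b ≫ D.x) D.M}
    (h : D.Good a b φ) (h' : D.Good a b ψ) : φ = ψ := by
  obtain ⟨i, hi, rfl⟩ := h
  obtain ⟨j, hj, rfl⟩ := h'
  rcases D.emp Y a i j (hi.trans hj.symm) with h1 | h1
  · exact D.ca_mod a i j h1 _ _ _ _ _
  · exact D.P.eq_of_lift_eq _ _ _ _ (h1 _ _ _)

variable [J.Subcanonical]

/-- A morphism which is locally a power of `α`. -/
def LGood {Y : C} (a b : Y ⟶ D.X) (φ : pb (a ≫ D.x) D.M ⟶ pb (b ≫ D.x) D.M) : Prop :=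
  ∃ R ∈ J Y, ∀ ⦃Z : C⦄ (h : Z ⟶ Y), R h →
    D.Good (h ≫ a) (h ≫ b) (pullHom φ h ((h ≫ a) ≫ D.x) ((h ≫ b) ≫ D.x)
      (by rw [Category.assoc]) (by rw [Category.assoc]))

lemma lgood_unique {Y : C} {a b : Y ⟶ D.X} {φ ψ : pb (a ≫ D.x) D.M ⟶ pb (b ≫ D.x) D.M}
    (h : D.LGood a b φ) (h' : D.LGood a b ψ) : φ = ψ := by
  obtain ⟨R, hR, hR'⟩ := h
  obtain ⟨T, hT, hT'⟩ := h'
  apply D.P.eq_of_cover (J := J) _ _ _ _ (R ⊓ T) (J.intersection_covering hR hT)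
  intro Z g hg
  have := D.good_unique (hR' g hg.1) (hT' g hg.2)
  have e1 : (g ≫ a) ≫ D.x = g ≫ a ≫ D.x := Category.assoc _ _ _
  have e2 : (g ≫ b) ≫ D.x = g ≫ b ≫ D.x := Category.assoc _ _ _
  have h3 := congrArg (fun φ => pullHom φ (𝟙 Z) (g ≫ a ≫ D.x) (g ≫ b ≫ D.x)
    (by rw [Category.id_comp, e1]) (by rw [Category.id_comp, e2])) this
  simp only [pullHom_pullHom, Category.id_comp] at h3
  exact h3

lemma lgood_of_good {Y : C} {a b : Y ⟶ D.X} {φ : pb (a ≫ D.x) D.M ⟶ pb (b ≫ D.x) D.M}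
    (h : D.Good a b φ) : D.LGood a b φ :=
  ⟨⊤, J.top_mem Y, fun Z g _ => D.good_pull h g _ _ rfl rfl⟩

lemma lgood_pull {Y Y' : C} {a b : Y ⟶ D.X} {φ : pb (a ≫ D.x) D.M ⟶ pb (b ≫ D.x) D.M}
    (h : D.LGood a b φ) (g : Y' ⟶ Y) (ga gb : Y' ⟶ D.X) (ha : g ≫ a = ga) (hb : g ≫ b = gb) :
    D.LGood ga gb (pullHom φ g (ga ≫ D.x) (gb ≫ D.x) (by rw [← ha, Category.assoc])
      (by rw [← hb, Category.assoc])) := by
  obtain ⟨R, hR, hR'⟩ := h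
  subst ha hb
  refine ⟨R.pullback g, J.pullback_stable g hR, fun Z h hh => ?_⟩
  have := D.good_pull (hR' (h ≫ g) hh) (𝟙 Z) (h ≫ g ≫ a) (h ≫ g ≫ b)
    (by simp) (by simp)
  rw [pullHom_pullHom] at this
  rw [pullHom_pullHom]
  simpa using this

lemma lgood_comp {Y : C} {a b c : Y ⟶ D.X} {φ : pb (a ≫ D.x) D.M ⟶ pb (b ≫ D.x) D.M}
    {ψ : pb (b ≫ D.x) D.M ⟶ pb (c ≫ D.x) D.M} (h : D.LGood a b φ) (h' : D.LGood b c ψ) :
    D.LGood a c (φ ≫ ψ) := by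
  obtain ⟨R, hR, hR'⟩ := h
  obtain ⟨T, hT, hT'⟩ := h'
  refine ⟨R ⊓ T, J.intersection_covering hR hT, fun Z g hg => ?_⟩
  rw [pullHom_comp φ ψ g _ ((g ≫ b) ≫ D.x) _ _ (by rw [Category.assoc]) _]
  exact D.good_comp (hR' g hg.1) (hT' g hg.2)

lemma exists_lgood {Y : C} (a b : Y ⟶ D.X) (hab : a ≫ D.f = b ≫ D.f) :
    ∃ φ, D.LGood a b φ := by
  obtain ⟨R, hR, hR'⟩ := D.cov Y a b hab
  choose j hj using hR'
  let φ : ∀ (Z : C) (h : Z ⟶ Y) (hh : R h), pb ((h ≫ a) ≫ D.x) D.M ⟶ pb ((h ≫ b) ≫ D.x) D.M :=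
    fun Z h hh => ca D.x D.σ D.α (h ≫ a) (j Z h hh) ((h ≫ a) ≫ D.x) ((h ≫ b) ≫ D.x) rfl
      (by rw [← Category.assoc, hj Z h hh])
  have hφ : ∀ Z h hh, D.Good (h ≫ a) (h ≫ b) (φ Z h hh) := fun Z h hh =>
    ⟨j Z h hh, hj Z h hh, rfl⟩
  let fam : Presieve.FamilyOfElements (yoneda.obj D.P.R) R.arrows := fun Z h hh =>
    D.P.lift ((h ≫ a) ≫ D.x) ((h ≫ b) ≫ D.x) (φ Z h hh)
  have hfam : fam.Compatible := by
    rw [Presieve.compatible_iff_sieveCompatible]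
    intro Z W h g hh
    change fam (g ≫ h) _ = g ≫ fam h hh
    have h1 : (g ≫ h) ≫ a = g ≫ h ≫ a := Category.assoc _ _ _
    have h2 : (g ≫ h) ≫ b = g ≫ h ≫ b := Category.assoc _ _ _
    have key := D.good_pull (hφ Z h hh) g ((g ≫ h) ≫ a) ((g ≫ h) ≫ b) h1.symm h2.symm
    have key' := D.good_unique (hφ W (g ≫ h) (R.downward_closed hh g)) key
    simp only [fam]
    rw [D.P.comp_lift _ _ (φ Z h hh) g (((g ≫ h) ≫ a) ≫ D.x) (((g ≫ h) ≫ b) ≫ D.x)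
      (by simp) (by simp), key']
  have hs := (GrothendieckTopology.Subcanonical.isSheaf_of_isRepresentable (J := J)
    (yoneda.obj D.P.R)) R hR
  obtain ⟨r, hr, -⟩ := hs fam hfam
  have hr' : ∀ (Z : C) (h : Z ⟶ Y) (hh : R h), h ≫ r = fam h hh := fun Z h hh => hr h hh
  have hsep : ∀ (W : C) (r r' : Y ⟶ W), (∀ (Z : C) (h : Z ⟶ Y), R h → h ≫ r = h ≫ r') → r = r' := by
    intro W r r' h
    exact ((GrothendieckTopology.Subcanonical.isSheaf_of_isRepresentable (J := J)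
      (yoneda.obj W)) R hR).isSeparatedFor.ext (fun Z g hg => h Z g hg)
  have ha : r ≫ D.P.s = a ≫ D.x := by
    apply hsep
    intro Z h hh
    rw [← Category.assoc, hr' Z h hh, D.P.lift_s, Category.assoc]
  have hb : r ≫ D.P.t = b ≫ D.x := by
    apply hsep
    intro Z h hh
    rw [← Category.assoc, hr' Z h hh, D.P.lift_t, Category.assoc]
  refine ⟨pullHom D.P.ρ r (a ≫ D.x) (b ≫ D.x) ha hb, R, hR, fun Z h hh => ?_⟩
  rw [pullHom_pullHom]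
  convert hφ Z h hh using 1
  rw [← D.P.lift_ρ _ _ (φ Z h hh)]
  congr 1
  exact hr' Z h hh

end CycData

end Pool.Agent.Helper17.NG
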