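import Pool.Agent.Helper17.NG.Cyc2

set_option autoImplicit false

universe v' v u' u

namespace Pool.Agent.Helper17.NG

open CategoryTheory Opposite Bicategory Pseudofunctor LocallyDiscreteOpToCat

variable {C : Type u} [Category.{v} C]

namespace CycData

variable {J : GrothendieckTopology C} {F : LocallyDiscrete Cᵒᵖ ⥤ᵖ Cat.{v', u'}}
    {S : C} (D : CycData J F S) [J.Subcanonical]

/-- The locally good morphism. -/
noncomputable def gd {Y : C} (a b : Y ⟶ D.X) (hab : a ≫ D.f = b ≫ D.f) :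
    pb (a ≫ D.x) D.M ⟶ pb (b ≫ D.x) D.M := (D.exists_lgood a b hab).choose

lemma lgood_gd {Y : C} (a b : Y ⟶ D.X) (hab : a ≫ D.f = b ≫ D.f) : D.LGood a b (D.gd a b hab) :=
  (D.exists_lgood a b hab).choose_spec

/-- The descent datum. -/
noncomputable def dd : F.DescentData (fun _ : PUnit.{1} => D.f) where
  obj _ := pb D.x D.M
  hom Y q _ _ a b ha hb := cj D.x D.x a b rfl rfl (D.gd a b (ha.trans hb.symm))
  pullHom_hom Y' Y g q q' hq _ _ a b ha hb ga gb hga hgb := by
    rw [pullHom_cj D.x D.x a b rfl rfl _ g ga gb hga hgb (gc := ga ≫ D.x) (gd := gb ≫ D.x)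
      (by rw [← hga, Category.assoc]) (by rw [← hgb, Category.assoc]) rfl rfl]
    congr 1
    exact D.lgood_unique (D.lgood_pull (D.lgood_gd a b _) g ga gb hga hgb) (D.lgood_gd ga gb _)
  hom_self Y q _ a ha := by
    rw [D.lgood_unique (D.lgood_gd a a _) (D.lgood_of_good (D.good_one a)), cj_one]
  hom_comp Y q _ _ _ a b c ha hb hc := by
    rw [← cj_comp]
    congr 1
    exact D.lgood_unique (D.lgood_comp (D.lgood_gd a b _) (D.lgood_gd b c _)) (D.lgood_gd a c _)

theorem exists_obj [F.IsStack J] (hf : Sieve.ofArrows _ (fun _ : PUnit.{1} => D.f) ∈ J S) :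
    ∃ z : F.obj (.mk (op S)), Nonempty (pb D.f z ≅ pb D.x D.M) := by
  have := F.isEquivalence_toDescentData (J := J) (fun _ : PUnit.{1} => D.f) hf
  have he := (F.toDescentData (fun _ : PUnit.{1} => D.f)).objObjPreimageIso D.dd
  refine ⟨(F.toDescentData (fun _ : PUnit.{1} => D.f)).objPreimage D.dd, ⟨?_⟩⟩
  exact
    { hom := he.hom.hom PUnit.unit
      inv := he.inv.hom PUnit.unit
      hom_inv_id := congrArg (fun φ => φ.hom PUnit.unit) he.hom_inv_id
      inv_hom_id := congrArg (fun φ => φ.hom PUnit.unit) he.inv_hom_id }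

end CycData

set_option backward.isDefEq.respectTransparency false in
/-- Descent of isomorphisms along a cyclic covering. -/
theorem iso_of_cyc {J : GrothendieckTopology C} {F : LocallyDiscrete Cᵒᵖ ⥤ᵖ Cat.{v', u'}}
    [F.IsStack J] [J.Subcanonical] {S X : C} (f : X ⟶ S) (σ : X ⟶ X) (hσ : σ ≫ f = f)
    (cov : ∀ (Y : C) (a b : Y ⟶ X), a ≫ f = b ≫ f → ∃ R ∈ J Y, ∀ (Z : C) (h : Z ⟶ Y), R h →
      ∃ j : ℕ, (h ≫ a) ≫ it σ j = h ≫ b)
    (hf : Sieve.ofArrows _ (fun _ : PUnit.{1} => f) ∈ J S)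
    {z z' : F.obj (.mk (op S))} (P : FibreProduct F z z') (ψ : pb f z ≅ pb f z')
    (hψ : pullHom ψ.hom σ f f hσ hσ = ψ.hom) : Nonempty (z ≅ z') := by
  have hit : ∀ j, it σ j ≫ f = f := by
    intro j
    induction j with
    | zero => exact Category.id_comp f
    | succ j ih => rw [it, Category.assoc, hσ, ih]
  have hψj : ∀ j, pullHom ψ.hom (it σ j) f f (hit j) (hit j) = ψ.hom := by
    intro j
    induction j with
    | zero => exact pullHom_id _
    | succ j ih =>
      conv_rhs => rw [← ih]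
      conv_rhs => rw [← hψ]
      rw [pullHom_pullHom]
      rfl
  have key : ∀ (Y : C) (a b : Y ⟶ X) (q : Y ⟶ S) (ha : a ≫ f = q) (hb : b ≫ f = q),
      pullHom ψ.hom a q q ha ha = pullHom ψ.hom b q q hb hb := by
    intro Y a b q ha hb
    obtain ⟨R, hR, hR'⟩ := cov Y a b (ha.trans hb.symm)
    apply P.eq_of_cover (J := J) _ _ _ _ R hR
    intro Z h hh
    obtain ⟨j, hj⟩ := hR' Z h hh
    rw [pullHom_pullHom, pullHom_pullHom]
    have e1 : pullHom ψ.hom (h ≫ a) (h ≫ q) (h ≫ q) (by rw [Category.assoc, ha])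
        (by rw [Category.assoc, ha]) =
      pullHom (pullHom ψ.hom (it σ j) f f (hit j) (hit j)) (h ≫ a) (h ≫ q) (h ≫ q)
        (by rw [Category.assoc, ha]) (by rw [Category.assoc, ha]) := by rw [hψj]
    rw [e1, pullHom_pullHom]
    congr 1
  have := F.isEquivalence_toDescentData (J := J) (fun _ : PUnit.{1} => f) hf
  refine ⟨(F.toDescentData (fun _ : PUnit.{1} => f)).preimageIso
    (DescentData.isoMk (fun _ => ψ) ?_)⟩
  intro Y q _ _ a b ha hb
  change (F.map a.op.toLoc).toFunctor.map ψ.hom ≫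
      ((F.mapComp' f.op.toLoc a.op.toLoc q.op.toLoc (by subst ha; simp)).inv.toNatTrans.app z' ≫
        (F.mapComp' f.op.toLoc b.op.toLoc q.op.toLoc (by subst hb; simp)).hom.toNatTrans.app z') =
    ((F.mapComp' f.op.toLoc a.op.toLoc q.op.toLoc (by subst ha; simp)).inv.toNatTrans.app z ≫
        (F.mapComp' f.op.toLoc b.op.toLoc q.op.toLoc (by subst hb; simp)).hom.toNatTrans.app z) ≫
      (F.map b.op.toLoc).toFunctor.map ψ.hom
  rw [map_eq_pullHom ψ.hom a q q ha ha, map_eq_pullHom ψ.hom b q q hb hb, key Y a b q ha hb]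
  simp [← reassoc_of% Cat.Hom₂.comp_app]

end Pool.Agent.Helper17.NG
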