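import Pool.Agent.Helper17.NG.Fro

/-!
# Finite stacks and finite gerbes over a field

A category fibered in groupoids over the category of `κ`-schemes is given by a pseudofunctor
`F : (κ-schemes)ᵒᵖ ⥤ᵖ Cat` (Mathlib). Stacks are stacks for the fpqc topology (`Pseudofunctor.IsStack`,
Mathlib).
-/

set_option autoImplicit false

universe v' v u' u

noncomputable section

namespace Pool.Agent.Helper17.NG

open CategoryTheory Opposite Bicategory Pseudofunctor LocallyDiscreteOpToCat AlgebraicGeometry Limits

variable (κ : Type) [Field κ]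

/-- Fibered categories over the category of `κ`-schemes. -/
abbrev Fib := LocallyDiscrete (Sch κ)ᵒᵖ ⥤ᵖ Cat.{v', u'}

variable {κ}

/-- `F` is a stack in groupoids for the fpqc topology. -/
structure GpdStk (F : Fib.{v', u'} κ) : Prop where
  isStack : F.IsStack (fpqc κ)
  isIso : ∀ (T : Sch κ) (y y' : F.obj (.mk (op T))) (φ : y ⟶ y'), IsIso φ

/-- A finite stack: a stack in groupoids `F` such that
* the diagonal is representable and finite: for objects `y₁` over `T₁` and `y₂` over `T₂` the fibre product
  `T₁ ×_F T₂` is represented by a scheme which is finite over `T₁ × T₂`;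
* there is an object `u` over a finite `κ`-scheme `U` such that `U ⟶ F` is flat and surjective:
  for every object `y` over `T` the projection `U ×_F T ⟶ T` is flat and surjective.

Then `R = U ×_F U` is finite over `κ` and `F` is the quotient of `U` by the finite flat groupoid
`R ⇉ U`. -/
structure FinStk (F : Fib.{v', u'} κ) : Prop extends GpdStk F where
  diagonal : ∀ (T₁ T₂ : Sch κ) (y₁ : F.obj (.mk (op T₁))) (y₂ : F.obj (.mk (op T₂))),
    ∃ P : FibreProduct F y₁ y₂, IsFinite (pullback.lift (f := T₁.hom) (g := T₂.hom)
      P.s.left P.t.left (by rw [Over.w P.s, Over.w P.t]))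
  atlas : ∃ (U : Sch κ) (u : F.obj (.mk (op U))), IsFinite U.hom ∧
    ∀ (T : Sch κ) (y : F.obj (.mk (op T))) (P : FibreProduct F u y),
      Flat P.t.left ∧ Surjective P.t.left

/-- A finite gerbe: a finite stack which is a gerbe, i.e. locally nonempty, and any two objects
are locally isomorphic, for the fpqc topology. -/
structure FinGrb (F : Fib.{v', u'} κ) : Prop extends FinStk F where
  locally_nonempty : ∃ R ∈ fpqc κ (pt κ), ∀ (T : Sch κ) (h : T ⟶ pt κ), R h →
    Nonempty (F.obj (.mk (op T)))
  locally_isomorphic : ∀ (T : Sch κ) (y y' : F.obj (.mk (op T))), ∃ R ∈ fpqc κ T,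
    ∀ (Z : Sch κ) (h : Z ⟶ T), R h → Nonempty (pb h y ⟶ pb h y')

end Pool.Agent.Helper17.NG
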