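import Pool.Agent.Helper17.NG.Pt

set_option autoImplicit false

universe v' v u' u

noncomputable section

namespace Pool.Agent.Helper17.NG

open CategoryTheory Opposite Bicategory Pseudofunctor LocallyDiscreteOpToCat AlgebraicGeometry Limits

variable {κ : Type} [Field κ] {F : Fib.{v', u'} κ} [Fintype κ]

section

variable {U X : Sch κ} {M : F.obj (.mk (op U))} (x : X ⟶ U) (σ : X ⟶ X)
  (α : pb x M ⟶ pb (σ ≫ x) M)

omit [Fintype κ] in
/-- Powers of the norm. -/
lemma ca_pow (n : ℕ) (hn : it σ n = 𝟙 X) (k : ℕ) : ∀ (h : 𝟙 X ≫ it σ (k * n) ≫ x = x)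
    (h' : 𝟙 X ≫ it σ n ≫ x = x),
    ca x σ α (𝟙 X) (k * n) x x (Category.id_comp x) h =
      (show End (pb x M) from ca x σ α (𝟙 X) n x x (Category.id_comp x) h') ^ k := by
  have hk : ∀ k, it σ (k * n) = 𝟙 X := by
    intro k
    induction k with
    | zero => rw [Nat.zero_mul]; rfl
    | succ k ih => rw [Nat.succ_mul, it_add, ih, hn, Category.comp_id]
  induction k with
  | zero =>
    intro h h'
    rw [pow_zero]
    have key : ∀ m, m = 0 → ∀ (hm : 𝟙 X ≫ it σ m ≫ x = x),
        ca x σ α (𝟙 X) m x x (Category.id_comp x) hm = 𝟙 _ := by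
      rintro m rfl hm
      simp only [ca]
      rw [pullHom_one]
    exact key _ (Nat.zero_mul n) h
  | succ k ih =>
    intro h h'
    rw [pow_succ']
    have h1 : 𝟙 X ≫ it σ (k * n) ≫ x = x := by rw [hk, Category.id_comp, Category.id_comp]
    have key : ∀ m, m = k * n + n → ∀ (hm : 𝟙 X ≫ it σ m ≫ x = x),
        ca x σ α (𝟙 X) m x x (Category.id_comp x) hm =
          ca x σ α (𝟙 X) (k * n) x x (Category.id_comp x) h1 ≫
            ca x σ α (𝟙 X) n x x (Category.id_comp x) h' := by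
      rintro m rfl hm
      exact ca_add x σ α (𝟙 X) (k * n) n (𝟙 X) (by rw [hk, Category.id_comp]) _ _ _ _ _ _ _ _
    rw [key _ (Nat.succ_mul k n) h, ih h1 h']
    rfl

end

/-- A finite gerbe over a finite field has a rational point. -/
theorem FinGrb.nonempty_pt (hF : FinGrb F) : Nonempty (F.obj (.mk (op (pt κ)))) := by
  obtain ⟨L₀, L₁, _, _, hL₀, _, _, hL₁, v, g, ⟨α₁⟩⟩ := hF.exists_semilinear
  have hfin₁ : Finite L₁ := Module.finite_of_finite κ
  have hit : it (fro κ L₁) (Module.finrank κ L₁) = 𝟙 _ := it_fro L₁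
  have h' : 𝟙 (sp κ L₁) ≫ it (fro κ L₁) (Module.finrank κ L₁) ≫ g = g := by
    rw [hit, Category.id_comp, Category.id_comp]
  let ν : End (pb g v) := ca g (fro κ L₁) α₁ (𝟙 _) (Module.finrank κ L₁) g g (Category.id_comp g) h'
  have hfinE : Finite (End (pb g v)) := finite_pb_hom hF.toFinStk v v L₁ g g
  obtain ⟨i, j, hij, hνij⟩ := Finite.exists_ne_map_eq_of_infinite (fun k : ℕ => ν ^ k)
  have hν : ∃ m : ℕ, 0 < m ∧ ν ^ m = 1 := by
    have hiso : IsIso (show pb g v ⟶ pb g v from ν) := hF.isIso _ _ _ _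
    have hu : IsUnit ν := by
      refine ⟨⟨ν, inv (show pb g v ⟶ pb g v from ν), ?_, ?_⟩, rfl⟩
      · exact IsIso.inv_hom_id (show pb g v ⟶ pb g v from ν)
      · exact IsIso.hom_inv_id (show pb g v ⟶ pb g v from ν)
    obtain ⟨w, hw⟩ := hu
    have hfinU : Finite (End (pb g v))ˣ := inferInstance
    have h1 := isOfFinOrder_of_finite w
    refine ⟨orderOf w, h1.orderOf_pos, ?_⟩
    rw [← hw, ← Units.val_pow_eq_pow_val, pow_orderOf_eq_one, Units.val_one]
  obtain ⟨m, hm0, hm⟩ := hν
  obtain ⟨p, hp⟩ := CharP.exists κ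
  have hpp : Fact p.Prime := ⟨CharP.char_is_prime κ p⟩
  have hpos : 0 < Module.finrank κ L₁ := Module.finrank_pos
  have hN : NeZero (m * Module.finrank κ L₁) := ⟨by positivity⟩
  let K := FiniteField.Extension κ p (m * Module.finrank κ L₁)
  have hKf : Finite K := inferInstance
  have hrank : Module.finrank κ K = m * Module.finrank κ L₁ := FiniteField.finrank_extension _ _ _
  obtain ⟨ψ⟩ := FiniteField.nonempty_algHom_of_finrank_dvd (F := κ) (K := L₁) (L := K)
    (by rw [hrank]; exact dvd_mul_left _ _)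
  let q : sp κ K ⟶ sp κ L₁ := spMap ψ
  have hq : fro κ K ≫ q = q ≫ fro κ L₁ := fro_nat q
  obtain ⟨P, hP⟩ := hF.toFinStk.finite_R v v
  have hσ : q ≫ fro κ L₁ ≫ g = fro κ K ≫ q ≫ g := by
    rw [← Category.assoc, ← hq, Category.assoc]
  let f : sp κ K ⟶ pt κ := Over.homMk (sp κ K).hom
  let D : CycData (fpqc κ) F (pt κ) :=
    { X := sp κ K
      f := f
      σ := fro κ K
      hσ := hom_pt_unique _ _
      n := Module.finrank κ K
      hn := it_fro K
      cov := fun Y a b _ => cov K Y a b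
      emp := fun Y a i j h => emp K Y a i j h
      U := sp κ L₀
      M := v
      P := P
      x := q ≫ g
      α := pullHom α₁ q (q ≫ g) (fro κ K ≫ q ≫ g) rfl hσ
      hα := by
        have h1 : 𝟙 (sp κ K) ≫ it (fro κ K) (Module.finrank κ K) ≫ q ≫ g = q ≫ g := by
          rw [it_fro, Category.id_comp, Category.id_comp]
        have hitm : it (fro κ L₁) (m * Module.finrank κ L₁) = 𝟙 _ := by
          have : ∀ k, it (fro κ L₁) (k * Module.finrank κ L₁) = 𝟙 _ := by
            intro k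
            induction k with
            | zero => rw [Nat.zero_mul]; rfl
            | succ k ih => rw [Nat.succ_mul, it_add, ih, hit, Category.comp_id]
          exact this m
        have h2 : q ≫ it (fro κ L₁) (Module.finrank κ K) ≫ g = q ≫ g := by
          rw [hrank, hitm, Category.id_comp]
        rw [ca_base g (fro κ L₁) α₁ (fro κ K) q hq (q ≫ g) rfl hσ (𝟙 _) q (Category.id_comp q)
          (Module.finrank κ K) (q ≫ g) (q ≫ g) (Category.id_comp _) h1 rfl h2]
        have key : ∀ n, n = m * Module.finrank κ L₁ → ∀ (hn : q ≫ it (fro κ L₁) n ≫ g = q ≫ g),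
            ca g (fro κ L₁) α₁ q n (q ≫ g) (q ≫ g) rfl hn = 𝟙 _ := by
          rintro n rfl hn
          have h3 : 𝟙 (sp κ L₁) ≫ it (fro κ L₁) (m * Module.finrank κ L₁) ≫ g = g := by
            rw [hitm, Category.id_comp, Category.id_comp]
          rw [← ca_pull g (fro κ L₁) α₁ (𝟙 _) q q (Category.comp_id q) _ g g (Category.id_comp g) h3
            (q ≫ g) (q ≫ g) rfl rfl rfl hn, ca_pow g (fro κ L₁) α₁ _ hit m h3 h']
          have h4 := congrArg (fun φ => pullHom (show pb g v ⟶ pb g v from φ) q (q ≫ g) (q ≫ g)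
            rfl rfl) hm
          exact h4.trans (pullHom_one _ _ _ _ _)
        exact key _ hrank h2 }
  have := hF.isStack
  obtain ⟨z, -⟩ := D.exists_obj (sp_cover K f)
  exact ⟨z⟩

end Pool.Agent.Helper17.NG
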