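import Pool.Agent.Helper17.NG.Stmt

/-!
# The Fermat curve `x ^ n + y ^ n + z ^ n = 0` in the projective plane
-/

set_option autoImplicit false

noncomputable section

namespace Pool.Agent.Helper17.NG

open CategoryTheory AlgebraicGeometry MvPolynomial

section

variable {k S : Type*} [Field k] [CommRing S] [Algebra k S] (𝒜 : ℕ → Submodule k S) [GradedAlgebra 𝒜]
  (I : Ideal S)

/-- The images of the homogeneous parts in a quotient. -/
def qgr (d : ℕ) : Submodule k (S ⧸ I) := (𝒜 d).map (Ideal.Quotient.mkₐ k I).toLinearMap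

omit [GradedAlgebra 𝒜] in
lemma mem_qgr {d : ℕ} {b : S ⧸ I} : b ∈ qgr 𝒜 I d ↔ ∃ a ∈ 𝒜 d, Ideal.Quotient.mk I a = b := by
  rw [qgr, Submodule.mem_map]
  rfl

lemma qgr_one : (1 : S ⧸ I) ∈ qgr 𝒜 I 0 :=
  (mem_qgr 𝒜 I).2 ⟨1, SetLike.GradedOne.one_mem, map_one _⟩

lemma qgr_mul {i j : ℕ} {a b : S ⧸ I} (ha : a ∈ qgr 𝒜 I i) (hb : b ∈ qgr 𝒜 I j) :
    a * b ∈ qgr 𝒜 I (i + j) := by
  obtain ⟨a', ha', rfl⟩ := (mem_qgr 𝒜 I).1 ha
  obtain ⟨b', hb', rfl⟩ := (mem_qgr 𝒜 I).1 hb
  exact (mem_qgr 𝒜 I).2 ⟨a' * b', SetLike.mul_mem_graded ha' hb', map_mul _ _ _⟩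

instance : SetLike.GradedMonoid (qgr 𝒜 I) where
  one_mem := qgr_one 𝒜 I
  mul_mem := fun _ _ _ _ => qgr_mul 𝒜 I

variable {I}

lemma qgr_internal (hI : I.IsHomogeneous 𝒜) : DirectSum.IsInternal (qgr 𝒜 I) := by
  classical
  constructor
  · rw [injective_iff_map_eq_zero]
    intro x hx
    rw [DirectSum.coeAddMonoidHom_eq_dfinsuppSum] at hx
    choose a ha ha' using fun i => (mem_qgr 𝒜 I).1 (x i).2
    have hsum : ∑ i ∈ DFinsupp.support x, a i ∈ I := by
      rw [← Ideal.Quotient.eq_zero_iff_mem, map_sum]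
      rw [DFinsupp.sum] at hx
      rw [← hx]
      exact Finset.sum_congr rfl fun i _ => ha' i
    ext i
    by_cases hi : i ∈ DFinsupp.support x
    · have h1 := hI i hsum
      have h2 : (DirectSum.decompose 𝒜 (∑ i ∈ DFinsupp.support x, a i) i : S) = a i := by
        rw [DirectSum.decompose_sum, DirectSum.sum_apply, AddSubmonoidClass.coe_finsetSum,
          Finset.sum_eq_single i]
        · exact DirectSum.decompose_of_mem_same _ (ha i)
        · intro j _ hj
          exact DirectSum.decompose_of_mem_ne _ (ha j) hj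
        · intro h
          exact absurd hi h
      rw [h2] at h1
      rw [← ha' i, Ideal.Quotient.eq_zero_iff_mem.2 h1]
      rfl
    · rw [DFinsupp.notMem_support_iff.1 hi]
      rfl
  · intro b
    obtain ⟨s, rfl⟩ := Ideal.Quotient.mk_surjective b
    refine ⟨∑ i ∈ DFinsupp.support (DirectSum.decompose 𝒜 s), DirectSum.of (fun i => qgr 𝒜 I i) i
      ⟨Ideal.Quotient.mk I (DirectSum.decompose 𝒜 s i), (mem_qgr 𝒜 I).2 ⟨_, SetLike.coe_mem _, rfl⟩⟩, ?_⟩
    rw [map_sum]
    conv_rhs => rw [← DirectSum.sum_support_decompose 𝒜 s, map_sum]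
    refine Finset.sum_congr rfl fun i _ => ?_
    rw [DirectSum.coeAddMonoidHom_of]

theorem nonempty_qgr (hI : I.IsHomogeneous 𝒜) : Nonempty (GradedRing (qgr 𝒜 I)) :=
  ⟨{ (qgr_internal 𝒜 hI).chooseDecomposition with }⟩

end

variable (κ : Type) [Field κ] (n : ℕ)

/-- The form `x ^ n + y ^ n + z ^ n`. -/
def fermat : MvPolynomial (Fin 3) κ := X 0 ^ n + X 1 ^ n + X 2 ^ n

/-- The homogeneous coordinate ring `κ[x, y, z] / (x ^ n + y ^ n + z ^ n)`. -/
abbrev FR : Type := MvPolynomial (Fin 3) κ ⧸ Ideal.span {fermat κ n}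

/-- Its grading by the degree: the classes of the forms of degree `d`. -/
def gr (d : ℕ) : Submodule κ (FR κ n) :=
  (homogeneousSubmodule (Fin 3) κ d).map (Ideal.Quotient.mkₐ κ (Ideal.span {fermat κ n})).toLinearMap

lemma fermat_homogeneous : (fermat κ n).IsHomogeneous n := by
  have h : ∀ i : Fin 3, (X i ^ n : MvPolynomial (Fin 3) κ).IsHomogeneous n := fun i =>
    isHomogeneous_X_pow i n
  exact ((h 0).add (h 1)).add (h 2)

attribute [local instance] MvPolynomial.gradedAlgebra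

theorem nonempty_gr : Nonempty (GradedRing (gr κ n)) := by
  apply nonempty_qgr (homogeneousSubmodule (Fin 3) κ)
  apply Ideal.homogeneous_span
  intro x hx
  rw [Set.mem_singleton_iff] at hx
  subst hx
  exact ⟨n, fermat_homogeneous κ n⟩

instance : GradedRing (gr κ n) := Classical.choice (nonempty_gr κ n)

/-- The Fermat curve of degree `n`: the curve `x ^ n + y ^ n + z ^ n = 0` in the projective plane. -/
def fermatCurve : Sch κ :=
  Over.mk (Proj.toSpecZero (gr κ n) ≫ Spec.map (CommRingCat.ofHom (algebraMap κ (gr κ n 0))))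

end Pool.Agent.Helper17.NG
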