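import Pool.Agent.Helper17.NG.Fer

set_option autoImplicit false

noncomputable section

namespace Pool.Agent.Helper17.NG

open CategoryTheory AlgebraicGeometry MvPolynomial

variable (κ : Type) [Field κ] (n : ℕ)

lemma mem_gr {d : ℕ} {b : FR κ n} : b ∈ gr κ n d ↔ ∃ a : MvPolynomial (Fin 3) κ,
    a.IsHomogeneous d ∧ Ideal.Quotient.mk _ a = b := by
  rw [gr, Submodule.mem_map]
  rfl

lemma algebraMap_surj : Function.Surjective (algebraMap κ (gr κ n 0)) := by
  rintro ⟨b, hb⟩
  obtain ⟨a, ha, rfl⟩ := (mem_gr κ n).1 hb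
  have h1 : a ∈ homogeneousSubmodule (Fin 3) κ 0 := ha
  rw [homogeneousSubmodule_zero] at h1
  obtain ⟨c, rfl⟩ := Submodule.mem_one.1 h1
  exact ⟨c, Subtype.ext rfl⟩

instance : IsScalarTower κ (gr κ n 0) (FR κ n) := by
  exact IsScalarTower.of_algebraMap_eq (R := κ) (S := gr κ n 0) (A := FR κ n) (fun x => rfl)

instance : Algebra.FiniteType (gr κ n 0) (FR κ n) :=
  Algebra.FiniteType.of_restrictScalars_finiteType κ _ _

theorem fermat_proper : IsProper (fermatCurve κ n).hom := by
  have h1 : IsClosedImmersion (Spec.map (CommRingCat.ofHom (algebraMap κ (gr κ n 0)))) :=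
    IsClosedImmersion.spec_of_surjective _ (algebraMap_surj κ n)
  change IsProper (Proj.toSpecZero (gr κ n) ≫ Spec.map (CommRingCat.ofHom (algebraMap κ (gr κ n 0))))
  infer_instance

/-- The coordinate `x_i` as an element of the homogeneous coordinate ring. -/
def co (i : Fin 3) : FR κ n := Ideal.Quotient.mk _ (X i)

lemma co_mem (i : Fin 3) : co κ n i ∈ gr κ n 1 := (mem_gr κ n).2 ⟨X i, isHomogeneous_X κ i, rfl⟩

lemma adjoin_co : Algebra.adjoin (gr κ n 0) (Set.range (co κ n)) = ⊤ := by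
  rw [eq_top_iff]
  rintro b -
  obtain ⟨p, rfl⟩ := Ideal.Quotient.mk_surjective b
  induction p using MvPolynomial.induction_on with
  | C a =>
    have : (Ideal.Quotient.mk (Ideal.span {fermat κ n})) (C a) =
      algebraMap (gr κ n 0) (FR κ n) (algebraMap κ (gr κ n 0) a) := rfl
    rw [this]
    exact Subalgebra.algebraMap_mem _ _
  | add p q hp hq => rw [map_add]; exact Subalgebra.add_mem _ hp hq
  | mul_X p i hp =>
    rw [map_mul]
    exact Subalgebra.mul_mem _ hp (Algebra.subset_adjoin ⟨i, rfl⟩)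

/-- The affine chart `x_i ≠ 0`. -/
abbrev chart (i : Fin 3) : Type := HomogeneousLocalization.Away (gr κ n) (co κ n i)

/-- The inclusion of the affine chart. -/
def chartι (i : Fin 3) : Spec (CommRingCat.of (chart κ n i)) ⟶ (fermatCurve κ n).left :=
  Proj.awayι (gr κ n) (co κ n i) (co_mem κ n i) one_pos

instance (i : Fin 3) : IsOpenImmersion (chartι κ n i) :=
  inferInstanceAs (IsOpenImmersion (Proj.awayι (gr κ n) (co κ n i) (co_mem κ n i) one_pos))

lemma chart_cover : ⨆ i, (chartι κ n i).opensRange = ⊤ := by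
  refine Eq.trans ?_ (Proj.iSup_basicOpen_eq_top' (gr κ n) (co κ n) (fun i => ⟨1, co_mem κ n i⟩)
    (adjoin_co κ n))
  congr 1
  ext1 i
  exact Proj.opensRange_awayι (gr κ n) (co κ n i) (co_mem κ n i) one_pos

/-- The structure map of the chart. -/
def chartMap (i : Fin 3) : κ →+* chart κ n i :=
  (HomogeneousLocalization.fromZeroRingHom (gr κ n) (Submonoid.powers (co κ n i))).comp
    (algebraMap κ (gr κ n 0))

lemma chartι_hom (i : Fin 3) : chartι κ n i ≫ (fermatCurve κ n).hom =
    Spec.map (CommRingCat.ofHom (chartMap κ n i)) := by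
  change Proj.awayι (gr κ n) (co κ n i) (co_mem κ n i) one_pos ≫ Proj.toSpecZero (gr κ n) ≫ Spec.map
    (CommRingCat.ofHom (algebraMap κ (gr κ n 0))) = _
  rw [Proj.awayι_toSpecZero_assoc, ← Spec.map_comp]
  rfl

end Pool.Agent.Helper17.NG
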