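import Pool.Agent.Helper17.NG.Fer2
import Pool.Agent.Helper17.NG.FStm

set_option autoImplicit false

noncomputable section

namespace Pool.Agent.Helper17.NG

open CategoryTheory AlgebraicGeometry MvPolynomial

variable (κ : Type) [Field κ] (n : ℕ)

/-- The coordinate functions `x` and `y` of the affine curve. -/
def fx : FC κ n := AdjoinRoot.of _ Polynomial.X

/-- The coordinate functions `x` and `y` of the affine curve. -/
def fy : FC κ n := AdjoinRoot.root _

lemma eval₂_rel {T : Type*} [CommRing T] (f : Polynomial κ →+* T) (t : T) :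
    Polynomial.eval₂ f t (Polynomial.X ^ n + Polynomial.C (Polynomial.X ^ n + 1)) =
      t ^ n + (f Polynomial.X ^ n + 1) := by
  rw [Polynomial.eval₂_add, Polynomial.eval₂_pow, Polynomial.eval₂_X, Polynomial.eval₂_C, map_add,
    map_pow, map_one]

lemma fc_rel : fy κ n ^ n + (fx κ n ^ n + 1) = 0 := by
  have h := AdjoinRoot.eval₂_root
    (Polynomial.X ^ n + Polynomial.C (Polynomial.X ^ n + 1) : Polynomial (Polynomial κ))
  rw [eval₂_rel] at h
  exact h

/-- The values of the homogeneous coordinates on the affine curve. -/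
def xx (i l : Fin 3) : FC κ n := if l = i then 1 else if l = i + 1 then fx κ n else fy κ n

lemma sum_xx (i : Fin 3) : xx κ n i 0 ^ n + xx κ n i 1 ^ n + xx κ n i 2 ^ n = 0 := by
  rw [← fc_rel κ n]
  fin_cases i <;> simp [xx] <;> ring

/-- The map from the homogeneous coordinate ring to the ring of the affine curve. -/
def dl (i : Fin 3) : FR κ n →+* FC κ n :=
  Ideal.Quotient.lift _ (aeval (xx κ n i) : MvPolynomial (Fin 3) κ →ₐ[κ] FC κ n).toRingHom (by
    intro a ha
    rw [Ideal.mem_span_singleton] at ha
    obtain ⟨b, rfl⟩ := ha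
    have h : (aeval (xx κ n i)) (fermat κ n) = 0 := by
      simp only [fermat, map_add, map_pow, aeval_X]
      exact sum_xx κ n i
    change aeval (xx κ n i) (fermat κ n * b) = 0
    rw [map_mul, h, zero_mul])

lemma dl_mk (i : Fin 3) (G : MvPolynomial (Fin 3) κ) :
    dl κ n i (Ideal.Quotient.mk _ G) = aeval (xx κ n i) G := rfl

lemma dl_co (i l : Fin 3) : dl κ n i (co κ n l) = xx κ n i l := by
  rw [co, dl_mk, aeval_X]

lemma dl_unit (i : Fin 3) : IsUnit (dl κ n i (co κ n i)) := by
  rw [dl_co]
  simp [xx]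

/-- The map from the chart to the ring of the affine curve. -/
def psi (i : Fin 3) : chart κ n i →+* FC κ n :=
  (IsLocalization.Away.lift (S := Localization.Away (co κ n i)) (co κ n i) (dl_unit κ n i)).comp
    (algebraMap (chart κ n i) (Localization.Away (co κ n i)))

lemma psi_mk (i : Fin 3) (d : ℕ) (G : MvPolynomial (Fin 3) κ)
    (h : Ideal.Quotient.mk _ G ∈ gr κ n (d • 1)) :
    psi κ n i (HomogeneousLocalization.Away.mk (gr κ n) (co_mem κ n i) d (Ideal.Quotient.mk _ G) h) =
      aeval (xx κ n i) G := by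
  rw [psi, RingHom.comp_apply, HomogeneousLocalization.algebraMap_apply,
    HomogeneousLocalization.Away.val_mk]
  have h1 : (Localization.mk (Ideal.Quotient.mk (Ideal.span {fermat κ n}) G)
      (⟨co κ n i ^ d, by use d⟩ : Submonoid.powers (co κ n i))) * algebraMap _ _ (co κ n i ^ d) =
      algebraMap _ (Localization.Away (co κ n i)) (Ideal.Quotient.mk (Ideal.span {fermat κ n}) G) := by
    rw [Localization.mk_eq_mk']
    exact IsLocalization.mk'_spec _ _ (⟨co κ n i ^ d, by use d⟩ : Submonoid.powers (co κ n i))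
  have h2 := congrArg (IsLocalization.Away.lift (S := Localization.Away (co κ n i)) (co κ n i)
    (dl_unit κ n i)) h1
  rw [map_mul, IsLocalization.Away.lift_eq, IsLocalization.Away.lift_eq, map_pow, dl_co] at h2
  have h3 : xx κ n i i = 1 := by simp [xx]
  rw [h3, one_pow, mul_one] at h2
  exact h2

/-- The functions `x_l / x_i`. -/
def tt (i l : Fin 3) : chart κ n i :=
  HomogeneousLocalization.Away.mk (gr κ n) (co_mem κ n i) 1 (co κ n l) (co_mem κ n l)

lemma psi_tt (i l : Fin 3) : psi κ n i (tt κ n i l) = xx κ n i l := by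
  have := psi_mk κ n i 1 (X l) (co_mem κ n l)
  rw [aeval_X] at this
  exact this

lemma tt_val (i l : Fin 3) : (tt κ n i l).val * algebraMap _ _ (co κ n i) =
    algebraMap _ (Localization.Away (co κ n i)) (co κ n l) := by
  rw [tt, HomogeneousLocalization.Away.val_mk, Localization.mk_eq_mk']
  have := IsLocalization.mk'_spec (Localization.Away (co κ n i)) (co κ n l)
    (⟨co κ n i ^ 1, by use 1⟩ : Submonoid.powers (co κ n i))
  simpa only [pow_one] using this

lemma tt_self (i : Fin 3) : tt κ n i i = 1 := by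
  apply HomogeneousLocalization.val_injective
  have h := tt_val κ n i i
  have hu : IsUnit (algebraMap _ (Localization.Away (co κ n i)) (co κ n i)) :=
    IsLocalization.Away.algebraMap_isUnit _
  rw [HomogeneousLocalization.val_one]
  exact hu.mul_left_injective (by simpa using h)

/-- Evaluation at the functions `x_l / x_i`. -/
def ev (i : Fin 3) : MvPolynomial (Fin 3) κ →+* chart κ n i :=
  eval₂Hom (chartMap κ n i) (tt κ n i)

lemma chartMap_val (i : Fin 3) (c : κ) : (chartMap κ n i c).val =
    algebraMap _ (Localization.Away (co κ n i)) (Ideal.Quotient.mk (Ideal.span {fermat κ n}) (C c)) := by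
  change (algebraMap (gr κ n 0) (chart κ n i) (algebraMap κ (gr κ n 0) c)).val = _
  rw [← HomogeneousLocalization.algebraMap_apply, ← IsScalarTower.algebraMap_apply]
  rfl

lemma ev_val (i : Fin 3) (d : ℕ) (G : MvPolynomial (Fin 3) κ) (hG : G.IsHomogeneous d) :
    (ev κ n i G).val * algebraMap _ _ (co κ n i) ^ d =
      algebraMap _ (Localization.Away (co κ n i)) (Ideal.Quotient.mk (Ideal.span {fermat κ n}) G) := by
  have hval : ∀ z : chart κ n i, z.val = algebraMap (chart κ n i) (Localization.Away (co κ n i)) z :=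
    fun z => (HomogeneousLocalization.algebraMap_apply z).symm
  rw [hval]
  conv_lhs => rw [G.as_sum]
  conv_rhs => rw [G.as_sum]
  rw [map_sum, map_sum, map_sum, map_sum, Finset.sum_mul]
  refine Finset.sum_congr rfl fun m hm => ?_
  have hd : ∑ l ∈ m.support, m l = d := (hG.degree_eq_sum_deg_support hm).symm
  rw [ev, coe_eval₂Hom, eval₂_monomial, map_mul, ← hval, chartMap_val, MvPolynomial.monomial_eq,
    map_mul, map_mul]
  rw [mul_assoc]
  congr 1
  rw [Finsupp.prod, Finsupp.prod, map_prod, map_prod, map_prod]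
  rw [← hd, ← Finset.prod_pow_eq_pow_sum, ← Finset.prod_mul_distrib]
  refine Finset.prod_congr rfl fun l _ => ?_
  rw [map_pow, ← mul_pow, ← hval, tt_val, map_pow, map_pow]
  rfl

/-- The map from the ring of the affine curve to the chart. -/
def phi (i : Fin 3) : FC κ n →+* chart κ n i :=
  AdjoinRoot.lift (Polynomial.eval₂RingHom (chartMap κ n i) (tt κ n i (i + 1))) (tt κ n i (i + 2)) (by
    apply HomogeneousLocalization.val_injective
    have h := ev_val κ n i n (fermat κ n) (fermat_homogeneous κ n)
    have h0 : Ideal.Quotient.mk (Ideal.span {fermat κ n}) (fermat κ n) = 0 :=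
      Ideal.Quotient.eq_zero_iff_mem.2 (Ideal.mem_span_singleton_self _)
    rw [h0, map_zero] at h
    have hu : IsUnit (algebraMap _ (Localization.Away (co κ n i)) (co κ n i)) :=
      IsLocalization.Away.algebraMap_isUnit _
    have h1 : (ev κ n i (fermat κ n)).val = 0 := by
      rw [← (hu.pow n).mul_left_inj, h, zero_mul]
    have h2 : ev κ n i (fermat κ n) = tt κ n i 0 ^ n + tt κ n i 1 ^ n + tt κ n i 2 ^ n := by
      simp only [ev, fermat, map_add, map_pow, coe_eval₂Hom, eval₂_X]
    have h3 : Polynomial.eval₂ (Polynomial.eval₂RingHom (chartMap κ n i) (tt κ n i (i + 1)))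
        (tt κ n i (i + 2)) (Polynomial.X ^ n + Polynomial.C (Polynomial.X ^ n + 1)) =
        ev κ n i (fermat κ n) := by
      rw [h2, Polynomial.eval₂_add, Polynomial.eval₂_pow, Polynomial.eval₂_X, Polynomial.eval₂_C,
        map_add, map_pow, map_one, Polynomial.coe_eval₂RingHom, Polynomial.eval₂_X]
      have h4 : (1 : chart κ n i) = tt κ n i i ^ n := by rw [tt_self, one_pow]
      rw [h4]
      fin_cases i <;> simp <;> ring
    rw [h3, h1, HomogeneousLocalization.val_zero])

lemma phi_fx (i : Fin 3) : phi κ n i (fx κ n) = tt κ n i (i + 1) := by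
  rw [phi, fx, AdjoinRoot.lift_of, Polynomial.coe_eval₂RingHom, Polynomial.eval₂_X]

lemma phi_fy (i : Fin 3) : phi κ n i (fy κ n) = tt κ n i (i + 2) := by
  rw [phi, fy, AdjoinRoot.lift_root]

lemma phi_xx (i l : Fin 3) : phi κ n i (xx κ n i l) = tt κ n i l := by
  by_cases h1 : l = i
  · subst h1
    simp [xx, tt_self]
  · by_cases h2 : l = i + 1
    · subst h2
      simp [xx, phi_fx]
    · have h3 : l = i + 2 := by
        revert h1 h2
        revert l i
        decide
      subst h3
      simp [xx, phi_fy]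

lemma phi_C (i : Fin 3) (c : κ) : phi κ n i (algebraMap κ (FC κ n) c) = chartMap κ n i c := by
  have h : algebraMap κ (FC κ n) c = AdjoinRoot.of _ (Polynomial.C c) := rfl
  rw [h, phi, AdjoinRoot.lift_of, Polynomial.coe_eval₂RingHom, Polynomial.eval₂_C]

lemma phi_aeval (i : Fin 3) (G : MvPolynomial (Fin 3) κ) :
    phi κ n i (aeval (xx κ n i) G) = ev κ n i G := by
  induction G using MvPolynomial.induction_on with
  | C a => rw [MvPolynomial.aeval_C, phi_C, ev, coe_eval₂Hom, eval₂_C]
  | add p q hp hq =>
    have e : aeval (xx κ n i) (p + q) = aeval (xx κ n i) p + aeval (xx κ n i) q := map_add _ _ _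
    rw [e, map_add (phi κ n i), map_add (ev κ n i), hp, hq]
  | mul_X p l hp =>
    have e : aeval (xx κ n i) (p * X l) = aeval (xx κ n i) p * aeval (xx κ n i) (X l) :=
      map_mul _ _ _
    rw [e, map_mul (phi κ n i), map_mul (ev κ n i), hp, aeval_X, phi_xx]
    simp [ev]

lemma phi_psi (i : Fin 3) (z : chart κ n i) : phi κ n i (psi κ n i z) = z := by
  obtain ⟨d, a, ha, rfl⟩ := HomogeneousLocalization.Away.mk_surjective (gr κ n) (co_mem κ n i) z
  obtain ⟨G, hG, rfl⟩ := (mem_gr κ n).1 ha
  rw [psi_mk, phi_aeval]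
  apply HomogeneousLocalization.val_injective
  have h := ev_val κ n i _ G hG
  have hu : IsUnit (algebraMap _ (Localization.Away (co κ n i)) (co κ n i)) :=
    IsLocalization.Away.algebraMap_isUnit _
  rw [← (hu.pow (d • 1)).mul_left_inj, h, HomogeneousLocalization.Away.val_mk,
    Localization.mk_eq_mk']
  have h1 := IsLocalization.mk'_spec (Localization.Away (co κ n i))
    (Ideal.Quotient.mk (Ideal.span {fermat κ n}) G)
    (⟨co κ n i ^ d, by use d⟩ : Submonoid.powers (co κ n i))
  rw [map_pow] at h1
  rw [smul_eq_mul, mul_one]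
  exact h1.symm

lemma psi_phi (i : Fin 3) (z : FC κ n) : psi κ n i (phi κ n i z) = z := by
  have h : (psi κ n i).comp (phi κ n i) = RingHom.id _ := by
    apply AdjoinRoot.ringHom_ext
    · apply Polynomial.ringHom_ext
      · intro c
        have h1 := phi_C κ n i c
        have h2 : psi κ n i (chartMap κ n i c) = algebraMap κ (FC κ n) c := by
          have h3 := psi_mk κ n i 0 (C c) ((mem_gr κ n).2 ⟨C c, isHomogeneous_C _ c, rfl⟩)
          rw [aeval_C] at h3
          rw [← h3]
          congr 1
        change psi κ n i (phi κ n i (algebraMap κ (FC κ n) c)) = algebraMap κ (FC κ n) c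
        rw [h1, h2]
      · change psi κ n i (phi κ n i (fx κ n)) = fx κ n
        rw [phi_fx, psi_tt]
        simp [xx]
    · change psi κ n i (phi κ n i (fy κ n)) = fy κ n
      rw [phi_fy, psi_tt]
      have h1 : i + 2 ≠ i := by revert i; decide
      have h2 : i + 2 ≠ i + 1 := by revert i; decide
      simp [xx, h1, h2]
  exact congrArg (fun f => f z) h

/-- The chart is the affine curve `y ^ n + x ^ n + 1 = 0`. -/
def chartEquiv (i : Fin 3) : FC κ n ≃+* chart κ n i where
  toFun := phi κ n i
  invFun := psi κ n i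
  left_inv := psi_phi κ n i
  right_inv := phi_psi κ n i
  map_mul' := map_mul _
  map_add' := map_add _

lemma chartEquiv_C (i : Fin 3) :
    (chartEquiv κ n i : FC κ n →+* chart κ n i).comp (algebraMap κ (FC κ n)) = chartMap κ n i :=
  RingHom.ext (phi_C κ n i)

end Pool.Agent.Helper17.NG
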