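import Pool.Agent.Helper17.NG.Fer3
import Pool.Agent.H87F.NoriFermat1
import Pool.Agent.Helper44.NoriFermat2

set_option autoImplicit false

noncomputable section

namespace Pool.Agent.Helper17.NG

open CategoryTheory AlgebraicGeometry MvPolynomial Limits

variable (κ : Type) [Field κ] (n : ℕ)

lemma chart_smooth (hn : (n : κ) ≠ 0) (i : Fin 3) :
    RingHom.Locally (RingHom.IsStandardSmoothOfRelativeDimension 1) (chartMap κ n i) := by
  rw [← chartEquiv_C]
  exact (RingHom.locally_respectsIso
    RingHom.isStandardSmoothOfRelativeDimension_respectsIso).1 (algebraMap κ (FC κ n))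
    (chartEquiv κ n i) (Pool.Agent.H87F.NoriFermat1.smoothStm κ n hn)

lemma rel_map {T : Type*} [CommRing T] (f : FC κ n →+* T) :
    f (fy κ n) ^ n + (f (fx κ n) ^ n + 1) = 0 := by
  have h := congrArg f (fc_rel κ n)
  simpa only [map_add, map_pow, map_one, map_zero] using h

lemma hasRHP : HasRingHomProperty (@SmoothOfRelativeDimension.{0} 1)
    (RingHom.Locally (RingHom.IsStandardSmoothOfRelativeDimension 1)) := inferInstance

lemma locSrc : IsZariskiLocalAtSource (@SmoothOfRelativeDimension.{0} 1) :=
  @HasRingHomProperty.instIsZariskiLocalAtSource _ _ hasRHP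

theorem fermat_smooth (hn : (n : κ) ≠ 0) : SmoothOfRelativeDimension 1 (fermatCurve κ n).hom := by
  have h0 := hasRHP
  have h1 := locSrc
  rw [IsZariskiLocalAtSource.iff_of_iSup_eq_top (P := @SmoothOfRelativeDimension 1) _
    (chart_cover κ n)]
  intro i
  have h2 : (chartι κ n i).opensRange.ι ≫ (fermatCurve κ n).hom =
      (chartι κ n i).isoOpensRange.inv ≫ Spec.map (CommRingCat.ofHom (chartMap κ n i)) := by
    rw [← chartι_hom, Scheme.Hom.isoOpensRange_inv_comp_assoc]
  rw [h2]
  apply HasRingHomProperty.comp_of_isOpenImmersion (@SmoothOfRelativeDimension 1)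
  rw [HasRingHomProperty.Spec_iff (P := @SmoothOfRelativeDimension 1)]
  exact chart_smooth κ n hn i

/-- No rational points on the Fermat curve of degree `q - 1`. -/
theorem fermat_empty [Finite κ] (h2 : (2 : κ) ≠ 0) (h3 : (3 : κ) ≠ 0) :
    IsEmpty (pt κ ⟶ fermatCurve κ (Nat.card κ - 1)) := by
  constructor
  intro p
  set n := Nat.card κ - 1 with hn
  have hpt : Nonempty (pt κ).left := inferInstanceAs (Nonempty (PrimeSpectrum κ))
  obtain ⟨z⟩ := hpt
  have hz : p.left z ∈ ⨆ i, (chartι κ n i).opensRange := by
    rw [chart_cover]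
    trivial
  obtain ⟨i, hi⟩ := TopologicalSpace.Opens.mem_iSup.1 hz
  have hsub : Set.range p.left ⊆ Set.range (chartι κ n i) := by
    rintro _ ⟨z', rfl⟩
    have hs : Subsingleton (pt κ).left := inferInstanceAs (Subsingleton (PrimeSpectrum κ))
    have h1 : z' = z := Subsingleton.elim z' z
    rw [h1]
    exact hi
  let l : Spec (CommRingCat.of κ) ⟶ Spec (CommRingCat.of (chart κ n i)) :=
    IsOpenImmersion.lift (chartι κ n i) p.left hsub
  have hl : l ≫ chartι κ n i = p.left := IsOpenImmersion.lift_fac _ _ _
  obtain ⟨g, hg⟩ := Spec.map_surjective l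
  have h4 : (CommRingCat.ofHom (chartMap κ n i)) ≫ g = 𝟙 _ := by
    apply Spec.map_injective
    rw [Spec.map_comp, hg, ← chartι_hom, ← Category.assoc, hl, Spec.map_id]
    exact Over.w p
  have h5 := rel_map κ n (g.hom.comp (phi κ n i))
  have key : ∀ a : κ, a ^ n = 0 ∨ a ^ n = 1 := by
    intro a
    have := Fintype.ofFinite κ
    by_cases ha : a = 0
    · left
      rw [ha]
      apply zero_pow
      have h6 : 1 < Nat.card κ := Finite.one_lt_card
      omega
    · right
      rw [hn, Nat.card_eq_fintype_card]
      exact FiniteField.pow_card_sub_one_eq_one a ha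
  have h7 : ∀ a b : κ, b ^ n + (a ^ n + 1) = 0 → False := by
    intro a b h
    rcases key a with ha | ha <;> rcases key b with hb | hb <;> rw [ha, hb] at h
    · simp at h
    · apply h2
      rw [← h]
      norm_num
    · apply h2
      rw [← h]
      norm_num
    · apply h3
      rw [← h]
      norm_num
  exact h7 _ _ h5

end Pool.Agent.Helper17.NG
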