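import Pool.Agent.Helper17.NG.Fer4

set_option autoImplicit false

noncomputable section

namespace Pool.Agent.Helper17.NG

open CategoryTheory AlgebraicGeometry MvPolynomial Limits TensorProduct

/-- A space covered by irreducible open sets which meet pairwise is irreducible. -/
lemma irreducible_of_cover {Z ι : Type*} [TopologicalSpace Z] [Nonempty ι] (U : ι → Set Z)
    (hU : ∀ i, IsOpen (U i)) (hcov : ∀ z, ∃ i, z ∈ U i) (hirr : ∀ i, IsPreirreducible (U i))
    (hmeet : ∀ i j, (U i ∩ U j).Nonempty) : IrreducibleSpace Z := by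
  obtain ⟨i₀⟩ := (inferInstance : Nonempty ι)
  have hne : Nonempty Z := ⟨(hmeet i₀ i₀).some⟩
  refine { isPreirreducible_univ := ?_, toNonempty := hne }
  rintro V V' hV hV' ⟨v, -, hv⟩ ⟨v', -, hv'⟩
  obtain ⟨i, hi⟩ := hcov v
  obtain ⟨j, hj⟩ := hcov v'
  obtain ⟨w, hwi, hwj⟩ := hmeet i j
  obtain ⟨a, hai, haV, haj⟩ := hirr i V (U j) hV (hU j) ⟨v, hi, hv⟩ ⟨w, hwi, hwj⟩
  obtain ⟨b, hbj, ⟨hbV, hbi⟩, hbV'⟩ := hirr j (V ∩ U i) V' (hV.inter (hU i)) hV'
    ⟨a, haj, haV, hai⟩ ⟨v', hj, hv'⟩
  exact ⟨b, trivial, hbV, hbV'⟩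

variable (κ : Type) [Field κ] (n : ℕ)

/-- The chart as a `κ`-algebra. -/
local instance chartAlg (i : Fin 3) : Algebra κ (chart κ n i) := (chartMap κ n i).toAlgebra

lemma chart_domain (hn : (n : κ) ≠ 0) (K : Type) [Field K] [Algebra κ K] (i : Fin 3) :
    IsDomain (chart κ n i ⊗[κ] K) := by
  have h := Pool.Agent.Helper44.NoriFermat2.domainStm κ n hn K
  let e : FC κ n ≃ₐ[κ] chart κ n i := AlgEquiv.ofRingEquiv (f := chartEquiv κ n i) (fun c =>
    phi_C κ n i c)
  let e' : FC κ n ⊗[κ] K ≃ₐ[κ] chart κ n i ⊗[κ] K := Algebra.TensorProduct.congr e AlgEquiv.refl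
  exact e'.symm.toMulEquiv.isDomain _

lemma fc_domain (hn : (n : κ) ≠ 0) : IsDomain (FC κ n) := by
  have h := Pool.Agent.Helper44.NoriFermat2.domainStm κ n hn κ
  exact (Algebra.TensorProduct.rid κ κ (FC κ n)).symm.toMulEquiv.isDomain _

lemma fx_ne (hn : 2 ≤ n) : fx κ n ≠ 0 := by
  intro h
  have h1 : (Polynomial.X ^ n + Polynomial.C (Polynomial.X ^ n + 1) : Polynomial (Polynomial κ)) ∣
      Polynomial.C Polynomial.X := AdjoinRoot.mk_eq_zero.1 h
  have hm : (Polynomial.X ^ n + Polynomial.C (Polynomial.X ^ n + 1) :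
    Polynomial (Polynomial κ)).Monic := Polynomial.monic_X_pow_add_C _ (by omega)
  have hd : (Polynomial.X ^ n + Polynomial.C (Polynomial.X ^ n + 1) :
    Polynomial (Polynomial κ)).natDegree = n := Polynomial.natDegree_X_pow_add_C
  refine hm.not_dvd_of_natDegree_lt (by simp) ?_ h1
  rw [hd, Polynomial.natDegree_C]
  omega

lemma fy_ne (hn : 2 ≤ n) : fy κ n ≠ 0 := by
  intro h
  have h1 : (Polynomial.X ^ n + Polynomial.C (Polynomial.X ^ n + 1) : Polynomial (Polynomial κ)) ∣
      Polynomial.X := AdjoinRoot.mk_eq_zero.1 h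
  have hm : (Polynomial.X ^ n + Polynomial.C (Polynomial.X ^ n + 1) :
    Polynomial (Polynomial κ)).Monic := Polynomial.monic_X_pow_add_C _ (by omega)
  have hd : (Polynomial.X ^ n + Polynomial.C (Polynomial.X ^ n + 1) :
    Polynomial (Polynomial κ)).natDegree = n := Polynomial.natDegree_X_pow_add_C
  refine hm.not_dvd_of_natDegree_lt Polynomial.X_ne_zero ?_ h1
  rw [hd, Polynomial.natDegree_X]
  omega

lemma charts_meet (h : (n : κ) ≠ 0) (hn : 2 ≤ n) (i j : Fin 3) :
    ∃ x : (fermatCurve κ n).left, x ∈ (chartι κ n i).opensRange ∧ x ∈ (chartι κ n j).opensRange := by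
  have hdom := fc_domain κ n h
  have hxx : xx κ n i j ≠ 0 := by
    unfold xx
    split_ifs
    · exact one_ne_zero
    · exact fx_ne κ n hn
    · exact fy_ne κ n hn
  have ht : ¬ IsNilpotent (HomogeneousLocalization.Away.isLocalizationElem (co_mem κ n i)
      (co_mem κ n j)) := by
    intro h1
    have h2 := h1.map (psi κ n i)
    have h3 : HomogeneousLocalization.Away.isLocalizationElem (co_mem κ n i) (co_mem κ n j) =
        tt κ n i j := by
      apply HomogeneousLocalization.val_injective
      rw [HomogeneousLocalization.Away.isLocalizationElem, tt,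
        HomogeneousLocalization.Away.val_mk, HomogeneousLocalization.Away.val_mk]
      simp only [pow_one]
    rw [h3, psi_tt] at h2
    exact hxx h2.eq_zero
  have hne : (PrimeSpectrum.basicOpen (HomogeneousLocalization.Away.isLocalizationElem
      (co_mem κ n i) (co_mem κ n j)) : Set (PrimeSpectrum (chart κ n i))).Nonempty := by
    by_contra hcon
    rw [Set.not_nonempty_iff_eq_empty] at hcon
    apply ht
    rw [← PrimeSpectrum.basicOpen_eq_bot_iff]
    exact TopologicalSpace.Opens.ext hcon
  obtain ⟨z, hz⟩ := hne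
  refine ⟨chartι κ n i z, ⟨z, rfl⟩, ?_⟩
  have h4 := Proj.awayι_preimage_basicOpen (gr κ n) (co_mem κ n i) one_pos (co_mem κ n j) one_pos
  have h5 : z ∈ (Proj.awayι (gr κ n) (co κ n i) (co_mem κ n i) one_pos) ⁻¹ᵁ
      (Proj.basicOpen (gr κ n) (co κ n j)) := by
    rw [h4]
    exact hz
  have h6 : (chartι κ n j).opensRange = Proj.basicOpen (gr κ n) (co κ n j) :=
    Proj.opensRange_awayι _ _ _ _
  rw [h6]
  exact h5

/-- The Fermat curve is geometrically irreducible. -/
theorem fermat_irreducible (h : (n : κ) ≠ 0) (hn : 2 ≤ n) :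
    GeometricallyIrreducible (fermatCurve κ n).hom := by
  rw [geometricallyIrreducible_iff]
  refine geometrically_iff_of_commRing.2 ?_
  intro K _ _ Z fst snd hpb
  have hsurj : Surjective fst := by
    have h1 : Surjective (Spec.map (CommRingCat.ofHom (algebraMap κ K))) := by
      constructor
      intro x
      obtain ⟨y⟩ : Nonempty (PrimeSpectrum K) := inferInstance
      refine ⟨y, ?_⟩
      have hs : Subsingleton (PrimeSpectrum κ) := inferInstance
      exact hs.elim _ _
    exact MorphismProperty.of_isPullback (P := @Surjective) hpb.flip h1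
  refine irreducible_of_cover (fun i : Fin 3 => fst ⁻¹' (Set.range (chartι κ n i))) ?_ ?_ ?_ ?_
  · intro i
    exact (chartι κ n i).isOpenEmbedding.isOpen_range.preimage fst.continuous
  · intro z
    have hz : fst z ∈ ⨆ i, (chartι κ n i).opensRange := by
      rw [chart_cover]
      trivial
    obtain ⟨i, hi⟩ := TopologicalSpace.Opens.mem_iSup.1 hz
    exact ⟨i, hi⟩
  · intro i
    have hdom := chart_domain κ n h K i
    let W := pullback (chartι κ n i) fst
    have hr : Set.range (pullback.snd (chartι κ n i) fst) = fst ⁻¹' (Set.range (chartι κ n i)) :=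
      IsOpenImmersion.range_pullbackSnd _ _
    have hp2 : IsPullback (pullback.fst (chartι κ n i) fst) (pullback.snd (chartι κ n i) fst ≫ snd)
        (chartι κ n i ≫ (fermatCurve κ n).hom) (Spec.map (CommRingCat.ofHom (algebraMap κ K))) := by
      have := (IsPullback.of_hasPullback (chartι κ n i) fst).flip.paste_horiz hpb.flip
      exact this.flip
    rw [chartι_hom] at hp2
    let e : W ≅ Spec (CommRingCat.of (chart κ n i ⊗[κ] K)) :=
      hp2.isoPullback ≪≫ pullbackSpecIso κ (chart κ n i) K
    have hW : IrreducibleSpace W := by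
      have h2 : IrreducibleSpace (Spec (CommRingCat.of (chart κ n i ⊗[κ] K))) :=
        inferInstanceAs (IrreducibleSpace (PrimeSpectrum (chart κ n i ⊗[κ] K)))
      have h3 : IsIrreducible (Set.range e.inv) := by
        rw [← Set.image_univ]
        exact (IrreducibleSpace.isIrreducible_univ _).image _ e.inv.continuous.continuousOn
      have h4 : Set.range e.inv = Set.univ := Set.range_eq_univ.2 e.inv.homeomorph.surjective
      rw [h4] at h3
      exact (irreducibleSpace_def W).2 h3
    rw [← hr, ← Set.image_univ]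
    exact (IrreducibleSpace.isIrreducible_univ W).isPreirreducible.image _
      (pullback.snd (chartι κ n i) fst).continuous.continuousOn
  · intro i j
    obtain ⟨x, hi, hj⟩ := charts_meet κ n h hn i j
    obtain ⟨z, rfl⟩ := hsurj.surj x
    exact ⟨z, hi, hj⟩

end Pool.Agent.Helper17.NG
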