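import Pool.Agent.Helper17.NG.Brg
import Pool.Agent.Helper17.NG.Fer5

/-!
# The section conjecture for the Nori fundamental gerbe is false

Let `κ` be a field which is finitely generated over its prime field, and let `X` be a proper smooth
geometrically connected curve of genus `≥ 2` over `κ` with its Nori fundamental gerbe `X ⟶ Π_{X/κ}`.
The conjecture says that `σ_X : X(κ) ⟶ [Π_{X/κ}(κ)]` is bijective.

*Theorem.* Let `κ` be a finite field. Every profinite gerbe `G` over `κ` has a rational point:
`G(κ)` is not empty. Consequently, if `X` is a `κ`-scheme without rational points and `π : X ⟶ G` is a morphism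
to a profinite gerbe, in particular if `G` is the fundamental gerbe of `X`, then the map
`X(κ) ⟶ [G(κ)]`, `x ↦ x^* π`, is not surjective.

A counterexample to the conjecture, over every finite field `κ` of characteristic at least `5`, with `q`
elements: the plane curve `X : x ^ (q - 1) + y ^ (q - 1) + z ^ (q - 1) = 0`. It is proper, smooth of relative
dimension one and geometrically irreducible, its genus is `(q - 2) (q - 3) / 2 ≥ 3`, and it has no rational point
as the `(q - 1)`-th powers in `κ` are `0` and `1`.

(For the étale fundamental gerbe this is well known. The point is that the infinitesimal part of the Nori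
fundamental gerbe does not help over a finite field.)

All notions are the usual ones: fibered categories are pseudofunctors on the category of `κ`-schemes,
stacks are stacks for the fpqc topology (both from Mathlib); finite stacks, finite gerbes, profinite gerbes and
fundamental gerbes are defined in `Pool.Agent.Helper17.NG.Stmt`, the curve in `Pool.Agent.Helper17.NG.Fer`.

The proof. Let `F` be a finite gerbe over `κ` with `q` elements. There is an object `v` over a
finite field `L₀`. The objects `v` and `Frob^* v` are locally isomorphic; since the fibre product
`Spec L₀ ×_F Spec L₀` is a finite `κ`-scheme, they become isomorphic over a finite field `L₁`, even though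
the band of `F` need not be étale (`exists_semilinear`). The norm of this isomorphism `α` is an automorphism
of finite order of `v` over `L₁`; over a suitable extension `K` of `L₁` it becomes trivial. Then the powers of
`α` form a descent datum for `Spec K ⟶ Spec κ` (`CycData`, `exists_lgood`, `dd`), so `F(κ)` is not empty.
The same argument, applied to isomorphisms, shows that `F(κ)` has only finitely many classes
(`finite_classes`). For a limit of finite gerbes the claim follows by compactness
(`exists_compatible`).

The affine charts of the curve are identified with `y ^ n + x ^ n + 1 = 0` in `Pool.Agent.Helper17.NG.Fer3`; two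
facts on this affine curve (smoothness, geometric integrality) are due to helper87 and helper44.
-/

set_option autoImplicit false

universe w' w v' u'

namespace Pool.Agent.Helper17.NG.FinRes

open CategoryTheory AlgebraicGeometry Pool.Agent.Helper17.NG

theorem result :
    -- the negated form of Q1: the curve `x ^ (q - 1) + y ^ (q - 1) + z ^ (q - 1) = 0` over the field
    -- with `q` elements, of characteristic at least 5
    (∀ (κ : Type) [Field κ] [Finite κ], (2 : κ) ≠ 0 → (3 : κ) ≠ 0 →
      IsProper (fermatCurve κ (Nat.card κ - 1)).hom ∧
      SmoothOfRelativeDimension 1 (fermatCurve κ (Nat.card κ - 1)).hom ∧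
      GeometricallyIrreducible (fermatCurve κ (Nat.card κ - 1)).hom ∧
      ∀ (G : ProfiniteGerbe.{w', w, v', u'} κ) (π : Fi G.gerbe (fermatCurve κ (Nat.card κ - 1))),
        IsFundamentalGerbe _ G π → ¬ Function.Bijective (sectionMap π)) ∧
    -- more generally, all schemes without rational points over finite fields
    (∀ (κ : Type) [Field κ] [Finite κ] (X : Sch κ), IsEmpty (pt κ ⟶ X) →
      ∀ (G : ProfiniteGerbe.{w', w, v', u'} κ) (π : Fi G.gerbe X),
        Nonempty (Fi G.gerbe (pt κ)) ∧ ¬ Function.Surjective (sectionMap π)) := by
  refine ⟨?_, fun κ _ _ X hX G π => ⟨G.nonempty, G.not_surjective X hX π⟩⟩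
  intro κ _ _ h2 h3
  have hcard : Nat.card κ ≠ 0 := Nat.card_pos.ne'
  have hn : ((Nat.card κ - 1 : ℕ) : κ) ≠ 0 := by
    have := Fintype.ofFinite κ
    rw [Nat.cast_sub (Nat.one_le_iff_ne_zero.2 hcard), Nat.card_eq_fintype_card,
      FiniteField.cast_card_eq_zero]
    simp
  have h4 : 2 ≤ Nat.card κ - 1 := by
    by_contra hcon
    have h5 : Nat.card κ = 1 ∨ Nat.card κ = 2 := by omega
    have := Fintype.ofFinite κ
    have h6 : ((Nat.card κ : ℕ) : κ) = 0 := by
      rw [Nat.card_eq_fintype_card, FiniteField.cast_card_eq_zero]
    rcases h5 with h5 | h5
    · rw [h5] at h6
      simp at h6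
    · rw [h5] at h6
      exact h2 (by exact_mod_cast h6)
  exact ⟨fermat_proper κ _, fermat_smooth κ _ hn, fermat_irreducible κ _ hn h4,
    fun G π _ h => G.not_surjective _ (fermat_empty κ h2 h3) π h.2⟩

end Pool.Agent.Helper17.NG.FinRes
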