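import Pool.Agent.Helper17.NG.Exist

set_option autoImplicit false

universe v' v u' u

noncomputable section

namespace Pool.Agent.Helper17.NG

open CategoryTheory Opposite Bicategory Pseudofunctor LocallyDiscreteOpToCat AlgebraicGeometry Limits

variable {κ : Type} [Field κ] {F : Fib.{v', u'} κ} [Fintype κ]

/-- Objects of a finite gerbe over a finite field become isomorphic over an extension of bounded
degree. -/
lemma FinGrb.exists_bound (hF : FinGrb F) (z₀ : F.obj (.mk (op (pt κ)))) :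
    ∃ N : ℕ, 0 < N ∧ ∀ z : F.obj (.mk (op (pt κ))), ∃ (L : Type) (_ : Field L) (_ : Algebra κ L)
      (_ : Module.Finite κ L) (f : sp κ L ⟶ pt κ),
      Module.finrank κ L ≤ N ∧ Nonempty (pb f z₀ ⟶ pb f z) := by
  have hfpt : IsFinite (pt κ).hom := inferInstanceAs (IsFinite (𝟙 _))
  obtain ⟨P₀, hP₀⟩ := hF.toFinStk.finite_R z₀ z₀
  obtain ⟨A₀, _, _, hA₀, ⟨e₀⟩⟩ := exists_iso_sp_finite P₀.R
  refine ⟨Module.finrank κ A₀ + 1, by omega, fun z => ?_⟩
  obtain ⟨P, hP⟩ := hF.toFinStk.finite_R z₀ z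
  obtain ⟨A, _, _, hA, ⟨e⟩⟩ := exists_iso_sp_finite P.R
  have hpt : Nonempty (pt κ).left := inferInstanceAs (Nonempty (PrimeSpectrum κ))
  obtain ⟨R, hR, hR'⟩ := hF.locally_isomorphic _ z₀ z
  obtain ⟨Z, h, hh, ⟨ζ⟩⟩ := nonempty_of_cover R hR hpt
  obtain ⟨φ⟩ := hR' Z h hh
  have hnt : Nontrivial A := by
    by_contra hcon
    rw [not_nontrivial_iff_subsingleton] at hcon
    have : IsEmpty (PrimeSpectrum A) := inferInstance
    exact this.elim ((P.lift h h φ ≫ e.hom).left ζ)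
  obtain ⟨L, _, _, hL, χ, hχ⟩ := exists_finite_point (κ := κ) A
  let f : sp κ L ⟶ pt κ := Over.homMk (sp κ L).hom
  have hfinL : Finite L := Module.finite_of_finite κ
  -- points with values in `L`
  let pnt : (A →ₐ[κ] L) → (pb f z₀ ⟶ pb f z) := fun ψ =>
    pullHom P.ρ (spMap ψ ≫ e.inv) f f (hom_pt_unique _ _) (hom_pt_unique _ _)
  have hpnt : Function.Injective pnt := by
    intro ψ ψ' hψ
    have h1 := P.lift_unique f f (pnt ψ') (spMap ψ ≫ e.inv) (hom_pt_unique _ _) (hom_pt_unique _ _)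
      hψ
    have h2 := P.lift_unique f f (pnt ψ') (spMap ψ' ≫ e.inv) (hom_pt_unique _ _) (hom_pt_unique _ _)
      rfl
    have h3 : spMap ψ ≫ e.inv = spMap ψ' ≫ e.inv := h1.trans h2.symm
    exact spMap_injective ((cancel_mono e.inv).1 h3)
  have hfin1 : Finite (pb f z₀ ⟶ pb f z) := finite_pb_hom hF.toFinStk z₀ z L f f
  have hfin0 : Finite (pb f z₀ ⟶ pb f z₀) := finite_pb_hom hF.toFinStk z₀ z₀ L f f
  have hgal : IsGalois κ L := inferInstance
  have h1 : Module.finrank κ L ≤ Nat.card (pb f z₀ ⟶ pb f z) := by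
    rw [← IsGalois.card_aut_eq_finrank]
    apply Nat.card_le_card_of_injective (fun τ : Gal(L/κ) => pnt ((τ : L →ₐ[κ] L).comp χ))
    intro τ τ' hτ
    have h2 := hpnt hτ
    ext x
    obtain ⟨y, rfl⟩ := hχ x
    exact DFunLike.congr_fun h2 y
  have h2 : Nat.card (pb f z₀ ⟶ pb f z) ≤ Nat.card (pb f z₀ ⟶ pb f z₀) := by
    have hθ : IsIso (pnt χ) := hF.isIso _ _ _ _
    apply Nat.card_le_card_of_injective (fun φ => φ ≫ inv (pnt χ))
    intro φ φ' h
    exact (cancel_mono (inv (pnt χ))).1 h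
  have h3 : Nat.card (pb f z₀ ⟶ pb f z₀) ≤ Nat.card (A₀ →ₐ[κ] L) := by
    have hfinA : Finite (A₀ →ₐ[κ] L) := by
      have : Finite A₀ := Module.finite_of_finite κ
      exact Finite.of_injective (fun φ => (φ : A₀ → L)) DFunLike.coe_injective
    have h4 : ∀ φ : pb f z₀ ⟶ pb f z₀, ∃ ψ : A₀ →ₐ[κ] L, P₀.lift f f φ ≫ e₀.hom = spMap ψ :=
      fun φ => exists_spMap _
    choose ψ hψ using h4
    apply Nat.card_le_card_of_injective ψ
    intro φ φ' h
    apply P₀.eq_of_lift_eq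
    rw [← cancel_mono e₀.hom, hψ, hψ, h]
  have h4 : Nat.card (A₀ →ₐ[κ] L) ≤ Module.finrank κ A₀ := card_algHom_le_finrank κ A₀ L
  exact ⟨L, inferInstance, inferInstance, hL, f, by omega, ⟨pnt χ⟩⟩

/-- A finite gerbe over a finite field has only finitely many rational points up to isomorphism. -/
theorem FinGrb.finite_classes (hF : FinGrb F) :
    Finite (Quotient (isIsomorphicSetoid (F.obj (.mk (op (pt κ)))))) := by
  obtain ⟨z₀⟩ := hF.nonempty_pt
  obtain ⟨N, hN, hN'⟩ := hF.exists_bound z₀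
  obtain ⟨p, hp⟩ := CharP.exists κ
  have hpp : Fact p.Prime := ⟨CharP.char_is_prime κ p⟩
  have hNz : NeZero N.factorial := ⟨N.factorial_ne_zero⟩
  let K := FiniteField.Extension κ p N.factorial
  have hKf : Finite K := inferInstance
  have hrank : Module.finrank κ K = N.factorial := FiniteField.finrank_extension _ _ _
  let f : sp κ K ⟶ pt κ := Over.homMk (sp κ K).hom
  have hθ : ∀ z : F.obj (.mk (op (pt κ))), Nonempty (pb f z₀ ⟶ pb f z) := by
    intro z
    obtain ⟨L, _, _, _, g, hL, ⟨φ⟩⟩ := hN' z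
    have hpos : 0 < Module.finrank κ L := Module.finrank_pos
    obtain ⟨ψ⟩ := FiniteField.nonempty_algHom_of_finrank_dvd (F := κ) (K := L) (L := K)
      (by rw [hrank]; exact Nat.dvd_factorial hpos hL)
    exact ⟨pullHom φ (spMap ψ) f f (hom_pt_unique _ _) (hom_pt_unique _ _)⟩
  let θ : ∀ z : F.obj (.mk (op (pt κ))), pb f z₀ ⟶ pb f z := fun z => (hθ z).some
  have hσ : fro κ K ≫ f = f := hom_pt_unique _ _
  have hiso : ∀ {T : Sch κ} {y y' : F.obj (.mk (op T))} (φ : y ⟶ y'), IsIso φ :=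
    fun {T y y'} φ => hF.isIso T y y' φ
  let α : F.obj (.mk (op (pt κ))) → (pb f z₀ ⟶ pb f z₀) := fun z =>
    have := hiso (pullHom (θ z) (fro κ K) f f hσ hσ)
    θ z ≫ inv (pullHom (θ z) (fro κ K) f f hσ hσ)
  have hfpt : IsFinite (pt κ).hom := inferInstanceAs (IsFinite (𝟙 _))
  have hfin0 : Finite (pb f z₀ ⟶ pb f z₀) := finite_pb_hom hF.toFinStk z₀ z₀ K f f
  have hstack := hF.isStack
  have key : ∀ z z', α z = α z' → Nonempty (z ≅ z') := by
    intro z z' h
    have i1 := hiso (θ z)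
    have i2 := hiso (θ z')
    have i3 := hiso (pullHom (θ z) (fro κ K) f f hσ hσ)
    have i4 := hiso (pullHom (θ z') (fro κ K) f f hσ hσ)
    obtain ⟨P, -⟩ := hF.toFinStk.finite_R z z'
    let ψ : pb f z ⟶ pb f z' := inv (θ z) ≫ θ z'
    have i5 := hiso ψ
    have hinv : pullHom (inv (θ z)) (fro κ K) f f hσ hσ =
        inv (pullHom (θ z) (fro κ K) f f hσ hσ) := by
      apply IsIso.eq_inv_of_hom_inv_id
      rw [← pullHom_comp, IsIso.hom_inv_id]
      exact pullHom_one _ _ _ _ _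
    have hψ : pullHom ψ (fro κ K) f f hσ hσ = ψ := by
      have h1 : pullHom ψ (fro κ K) f f hσ hσ =
          inv (pullHom (θ z) (fro κ K) f f hσ hσ) ≫ pullHom (θ z') (fro κ K) f f hσ hσ := by
        rw [← hinv]
        exact pullHom_comp _ _ _ _ _ _ _ _ _
      have h2 : θ z ≫ inv (pullHom (θ z) (fro κ K) f f hσ hσ) =
          θ z' ≫ inv (pullHom (θ z') (fro κ K) f f hσ hσ) := h
      have h3 : inv (pullHom (θ z) (fro κ K) f f hσ hσ) =
          inv (θ z) ≫ θ z' ≫ inv (pullHom (θ z') (fro κ K) f f hσ hσ) := by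
        rw [← h2, IsIso.inv_hom_id_assoc]
      rw [h1, h3]
      simp only [Category.assoc, IsIso.inv_hom_id, Category.comp_id]
      rfl
    exact iso_of_cyc (J := fpqc κ) f (fro κ K) hσ (fun Y a b _ => cov K Y a b) (sp_cover K f) P
      (asIso ψ) hψ
  exact Finite.of_injective (fun c : Quotient (isIsomorphicSetoid (F.obj (.mk (op (pt κ))))) =>
    α c.out) (fun c c' h => by
      obtain ⟨i⟩ := key _ _ h
      rw [← Quotient.out_eq c, ← Quotient.out_eq c']
      exact Quotient.sound ⟨i⟩)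

end Pool.Agent.Helper17.NG
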