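import Pool.Agent.Helper17.NG.Cov

set_option autoImplicit false

universe v' v u' u

noncomputable section

namespace Pool.Agent.Helper17.NG

open CategoryTheory Opposite Bicategory AlgebraicGeometry Limits TopologicalSpace Pseudofunctor
  LocallyDiscreteOpToCat

variable {κ : Type} [Field κ] [Fintype κ]

lemma fro_nat {A B : Type} [CommRing A] [Algebra κ A] [CommRing B] [Algebra κ B]
    (f : sp κ B ⟶ sp κ A) : fro κ B ≫ f = f ≫ fro κ A := by
  obtain ⟨φ, rfl⟩ := exists_spMap f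
  rw [fro, fro, ← spMap_comp, ← spMap_comp]
  congr 1
  ext x
  simp [FiniteField.frobeniusAlgHom_apply]

omit [Fintype κ] in
lemma cancel_sp {A B B' : Type} [CommRing A] [Algebra κ A] [CommRing B] [Algebra κ B]
    [CommRing B'] [Algebra κ B'] (ι : B →ₐ[κ] B') (hι : Function.Injective ι)
    (f f' : sp κ B ⟶ sp κ A) (h : spMap ι ≫ f = spMap ι ≫ f') : f = f' := by
  obtain ⟨φ, rfl⟩ := exists_spMap f
  obtain ⟨ψ, rfl⟩ := exists_spMap f'
  rw [← spMap_comp, ← spMap_comp] at h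
  have h1 := spMap_injective h
  congr 1
  ext x
  exact hι (DFunLike.congr_fun h1 x)

omit [Fintype κ] in
lemma hom_pt_unique {Y : Sch κ} (f g : Y ⟶ pt κ) : f = g := by
  apply Over.OverMorphism.ext
  have h1 := Over.w f
  have h2 := Over.w g
  simp only [Over.mk_hom] at h1 h2
  have e1 : f.left = Y.hom := by simpa using h1
  have e2 : g.left = Y.hom := by simpa using h2
  rw [e1, e2]

lemma it_fro (K : Type) [Field K] [Algebra κ K] [Finite K] [Module.Finite κ K] :
    it (fro κ K) (Module.finrank κ K) = 𝟙 _ := by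
  have := Fintype.ofFinite K
  apply gm_ext
  intro x
  have h := gm_it (𝟙 (sp κ K)) (Module.finrank κ K) x
  rw [Category.id_comp] at h
  rw [h, ← Module.card_eq_pow_finrank, FiniteField.pow_card]

lemma emp (K : Type) [Field K] [Algebra κ K] [Finite K] [Module.Finite κ K] (Y : Sch κ)
    (a : Y ⟶ sp κ K) (i j : ℕ) (h : a ≫ it (fro κ K) i = a ≫ it (fro κ K) j) :
    i ≡ j [MOD Module.finrank κ K] ∨ ∀ (W : Sch κ) (r r' : Y ⟶ W), r = r' := by
  by_cases hY : Nonempty Y.left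
  · left
    have hnt : Nontrivial Γ(Y.left, ⊤) := by
      obtain ⟨y⟩ := hY
      exact RingHom.domain_nontrivial (Y.left.evaluation ⊤ y trivial).hom
    rw [← FiniteField.orderOf_frobeniusAlgEquivOfAlgebraic, ← pow_eq_pow_iff_modEq]
    ext x
    have h1 := congrArg (fun g => gm g x) h
    simp only [gm_it] at h1
    have h2 := (gm a).injective h1
    rw [AlgEquiv.coe_pow, AlgEquiv.coe_pow,
      FiniteField.coe_frobeniusAlgEquivOfAlgebraic_iterate,
      FiniteField.coe_frobeniusAlgEquivOfAlgebraic_iterate]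
    exact h2
  · right
    rw [not_nonempty_iff] at hY
    intro W r r'
    apply Over.OverMorphism.ext
    have hi : IsInitial Y.left := isInitialOfIsEmpty
    exact hi.hom_ext _ _

lemma ca_base {C : Type u} [Category.{v} C] {F : LocallyDiscrete Cᵒᵖ ⥤ᵖ Cat.{v', u'}}
    {U X X₁ : C} {M : F.obj (.mk (op U))} (g : X₁ ⟶ U) (σ₁ : X₁ ⟶ X₁)
    (α₁ : pb g M ⟶ pb (σ₁ ≫ g) M) (σ : X ⟶ X) (q : X ⟶ X₁) (hq : σ ≫ q = q ≫ σ₁)
    (x : X ⟶ U) (hx : q ≫ g = x) (hσ : q ≫ σ₁ ≫ g = σ ≫ x)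
    {Y : C} (a : Y ⟶ X) (a₁ : Y ⟶ X₁) (ha : a ≫ q = a₁) (j : ℕ) :
    ∀ (c d : Y ⟶ U) (hc : a ≫ x = c) (hd : a ≫ it σ j ≫ x = d) (hc' : a₁ ≫ g = c)
      (hd' : a₁ ≫ it σ₁ j ≫ g = d),
    ca x σ (pullHom α₁ q x (σ ≫ x) hx hσ) a j c d hc hd = ca g σ₁ α₁ a₁ j c d hc' hd' := by
  have hit : ∀ j, it σ j ≫ q = q ≫ it σ₁ j := by
    intro j
    induction j with
    | zero => simp [it]
    | succ j ih => rw [it, it, Category.assoc, hq, ← Category.assoc, ih, Category.assoc]
  induction j with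
  | zero =>
    intro c d hc hd hc' hd'
    rfl
  | succ j ih =>
    intro c d hc hd hc' hd'
    simp only [ca]
    subst ha
    have e : a ≫ it σ j ≫ x = (a ≫ q) ≫ it σ₁ j ≫ g := by
      rw [← hx, ← Category.assoc (it σ j), hit]
      simp only [Category.assoc]
    rw [pullHom_pullHom]
    refine comp_congr e _ _ ?_ _ _ ?_
    · rw [ih c (a ≫ it σ j ≫ x) hc rfl hc' e.symm]
      exact ca_congr g σ₁ α₁ (a ≫ q) j e hc' _ _
    · exact pull_congr α₁ (by rw [Category.assoc, hit, Category.assoc]) _ _ _ _ _ _ _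

end Pool.Agent.Helper17.NG
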