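import Pool.Agent.Helper17.NG.Defs

set_option autoImplicit false

universe v' v u' u

noncomputable section

namespace Pool.Agent.Helper17.NG

open CategoryTheory Opposite Bicategory Pseudofunctor LocallyDiscreteOpToCat AlgebraicGeometry Limits

variable {κ : Type} [Field κ] {F : Fib.{v', u'} κ}

/-- The fibre product of finite `κ`-schemes is finite. -/
lemma FinStk.finite_R (hF : FinStk F) {T₁ T₂ : Sch κ} [IsFinite T₁.hom]
    [IsFinite T₂.hom] (y₁ : F.obj (.mk (op T₁))) (y₂ : F.obj (.mk (op T₂))) :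
    ∃ P : FibreProduct F y₁ y₂, IsFinite P.R.hom := by
  obtain ⟨P, hP⟩ := hF.diagonal T₁ T₂ y₁ y₂
  refine ⟨P, ?_⟩
  have h1 : P.R.hom = pullback.lift (f := T₁.hom) (g := T₂.hom)
      P.s.left P.t.left (by rw [Over.w P.s, Over.w P.t]) ≫ pullback.fst _ _ ≫ T₁.hom := by
    rw [pullback.lift_fst_assoc, Over.w P.s]
  rw [h1]
  infer_instance

/-- A finite gerbe has an object over the spectrum of a finite field extension. -/
lemma FinGrb.exists_obj_field (hF : FinGrb F) :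
    ∃ (L : Type) (_ : Field L) (_ : Algebra κ L) (_ : Module.Finite κ L),
      Nonempty (F.obj (.mk (op (sp κ L)))) := by
  obtain ⟨R, hR, hR'⟩ := hF.locally_nonempty
  have hpt : Nonempty (pt κ).left := inferInstanceAs (Nonempty (Spec _))
  obtain ⟨T, h, hh, ⟨τ⟩⟩ := nonempty_of_cover R hR hpt
  obtain ⟨y⟩ := hR' T h hh
  obtain ⟨U, u, hU, hU'⟩ := hF.atlas
  obtain ⟨P, -⟩ := hF.diagonal U T u y
  obtain ⟨-, hs⟩ := hU' T y P
  obtain ⟨ρ, -⟩ := hs.surj τ
  have hne : Nonempty U.left := ⟨P.s.left ρ⟩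
  obtain ⟨A, _, _, hA, ⟨e⟩⟩ := exists_iso_sp_finite U
  have hnt : Nontrivial A := by
    obtain ⟨x⟩ := hne
    by_contra hcon
    rw [not_nontrivial_iff_subsingleton] at hcon
    have : IsEmpty (PrimeSpectrum A) := inferInstance
    exact this.elim (e.hom.left x)
  obtain ⟨L, _, _, hL, φ, -⟩ := exists_finite_point (κ := κ) A
  exact ⟨L, inferInstance, inferInstance, hL, ⟨pb (spMap φ ≫ e.inv) u⟩⟩


section

variable [Fintype κ]

omit [Fintype κ] in
/-- Finitely many morphisms from a finite scheme to a finite scheme over a finite field. -/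
lemma finite_hom [Finite κ] {R : Sch κ} (hR : IsFinite R.hom) (L : Type) [CommRing L]
    [Algebra κ L] [Module.Finite κ L] : Finite (sp κ L ⟶ R) := by
  obtain ⟨A, _, _, hA, ⟨e⟩⟩ := exists_iso_sp_finite R
  have : Finite A := Module.finite_of_finite κ
  have : Finite L := Module.finite_of_finite κ
  have h1 : Finite (A →ₐ[κ] L) := Finite.of_injective (fun φ => (φ : A → L)) DFunLike.coe_injective
  have h2 : Finite (sp κ L ⟶ sp κ A) :=
    Finite.of_surjective (fun φ : A →ₐ[κ] L => spMap φ) (fun g => by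
      obtain ⟨φ, hφ⟩ := exists_spMap g
      exact ⟨φ, hφ.symm⟩)
  exact Finite.of_injective (fun g : sp κ L ⟶ R => g ≫ e.hom) (fun g g' h => by
    simpa using h)

omit [Fintype κ] in
lemma finite_pb_hom [Finite κ] (hF : FinStk F) {T₁ T₂ : Sch κ} [IsFinite T₁.hom]
    [IsFinite T₂.hom] (y₁ : F.obj (.mk (op T₁))) (y₂ : F.obj (.mk (op T₂))) (L : Type) [CommRing L]
    [Algebra κ L] [Module.Finite κ L] (a : sp κ L ⟶ T₁) (b : sp κ L ⟶ T₂) :
    Finite (pb a y₁ ⟶ pb b y₂) := by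
  obtain ⟨P, hP⟩ := hF.finite_R y₁ y₂
  have := finite_hom hP L
  exact Finite.of_injective (fun φ => P.lift a b φ) (fun φ ψ h => P.eq_of_lift_eq a b φ ψ h)

omit [Fintype κ] in
instance (L : Type) [CommRing L] [Algebra κ L] [Module.Finite κ L] : IsFinite (sp κ L).hom := by
  change IsFinite (Spec.map (CommRingCat.ofHom (algebraMap κ L)))
  rw [IsFinite.SpecMap_iff]
  exact RingHom.finite_algebraMap.2 inferInstance

/-- Over some finite field there is an object with a semilinear automorphism. -/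
lemma FinGrb.exists_semilinear (hF : FinGrb F) :
    ∃ (L₀ L₁ : Type) (_ : Field L₀) (_ : Algebra κ L₀) (_ : Module.Finite κ L₀)
      (_ : Field L₁) (_ : Algebra κ L₁) (_ : Module.Finite κ L₁)
      (v : F.obj (.mk (op (sp κ L₀)))) (g : sp κ L₁ ⟶ sp κ L₀),
      Nonempty (pb g v ⟶ pb (fro κ L₁ ≫ g) v) := by
  obtain ⟨L₀, _, _, hL₀, ⟨v⟩⟩ := hF.exists_obj_field
  obtain ⟨P, hP⟩ := hF.toFinStk.finite_R v v
  obtain ⟨H, _, _, hH, ⟨e⟩⟩ := exists_iso_sp_finite P.R
  obtain ⟨R, hR, hR'⟩ := hF.locally_isomorphic _ v (pb (fro κ L₀) v)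
  have hne : Nonempty (sp κ L₀).left := inferInstanceAs (Nonempty (PrimeSpectrum L₀))
  obtain ⟨Z, h, hh, hZ⟩ := nonempty_of_cover R hR hne
  obtain ⟨K, _, _, ⟨k⟩⟩ := exists_field_point Z hZ
  obtain ⟨φ'⟩ := hR' _ (k ≫ h) (R.downward_closed hh k)
  -- the isomorphism over `Spec K`
  let φ : pb (k ≫ h) v ⟶ pb ((k ≫ h) ≫ fro κ L₀) v :=
    φ' ≫ (F.mapComp' (fro κ L₀).op.toLoc (k ≫ h).op.toLoc ((k ≫ h) ≫ fro κ L₀).op.toLoc
      (by simp)).inv.toNatTrans.app v
  let r := P.lift _ _ φ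
  obtain ⟨χ, hχ⟩ := exists_spMap (r ≫ e.hom)
  have hprime : (RingHom.ker χ).IsPrime := RingHom.ker_isPrime χ
  have hfin : Finite H := Module.finite_of_finite κ
  have hmax : (RingHom.ker χ).IsMaximal := IsArtinianRing.isMaximal_of_isPrime _
  let _ : Field (H ⧸ RingHom.ker χ) := Ideal.Quotient.field _
  let r₁ : sp κ (H ⧸ RingHom.ker χ) ⟶ P.R := spMap (Ideal.Quotient.mkₐ κ (RingHom.ker χ)) ≫ e.inv
  let ι : (H ⧸ RingHom.ker χ) →ₐ[κ] K := Ideal.kerLiftAlg χ
  have hι : Function.Injective ι := Ideal.kerLiftAlg_injective χ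
  have hr : r = spMap ι ≫ r₁ := by
    have h1 : spMap χ = spMap ι ≫ spMap (Ideal.Quotient.mkₐ κ (RingHom.ker χ)) := by
      rw [← spMap_comp]
      congr 1
    rw [← Category.comp_id r, ← e.hom_inv_id, ← Category.assoc, hχ, h1, Category.assoc]
  have hs : r ≫ P.s = k ≫ h := P.lift_s _ _ φ
  have ht : r ≫ P.t = (k ≫ h) ≫ fro κ L₀ := P.lift_t _ _ φ
  have key : r₁ ≫ P.t = fro κ (H ⧸ RingHom.ker χ) ≫ r₁ ≫ P.s := by
    apply cancel_sp ι hι
    rw [fro_nat, ← Category.assoc, ← hr, ht, ← Category.assoc, ← Category.assoc, ← hr, hs]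
  exact ⟨L₀, H ⧸ RingHom.ker χ, inferInstance, inferInstance, hL₀, inferInstance, inferInstance,
    inferInstance, v, r₁ ≫ P.s, ⟨pullHom P.ρ r₁ _ _ rfl key⟩⟩

end

end Pool.Agent.Helper17.NG
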