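import Pool.Agent.Helper17.NG.Cyc3
import Pool.Agent.Helper17.NG.Stmt

set_option autoImplicit false

universe v' v u' u

noncomputable section

namespace Pool.Agent.Helper17.NG

open CategoryTheory Opposite Bicategory Pseudofunctor LocallyDiscreteOpToCat AlgebraicGeometry Limits

variable (κ : Type) [Field κ]

/-- The `κ`-scheme `Spec A` of a `κ`-algebra `A`. -/
abbrev sp (A : Type) [CommRing A] [Algebra κ A] : Sch κ :=
  Over.mk (Spec.map (CommRingCat.ofHom (algebraMap κ A)))

variable {κ}

/-- A covering sieve of a nonempty scheme contains a nonempty scheme. -/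
lemma nonempty_of_cover {Y : Sch κ} (R : Sieve Y) (hR : R ∈ fpqc κ Y) (hY : Nonempty Y.left) :
    ∃ (Z : Sch κ) (h : Z ⟶ Y), R h ∧ Nonempty Z.left := by
  by_contra hcon
  have hemp : ∀ (Z : Sch κ) (h : Z ⟶ Y), R h → IsEmpty Z.left := by
    intro Z h hh
    by_contra h1
    rw [not_isEmpty_iff] at h1
    exact hcon ⟨Z, h, hh, h1⟩
  let W : Sch κ := Over.mk (Scheme.emptyTo (Spec (CommRingCat.of κ)))
  have hs := (GrothendieckTopology.Subcanonical.isSheaf_of_isRepresentable (J := fpqc κ)
    (yoneda.obj W)) R hR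
  have hini : ∀ (Z : Sch κ) (h : Z ⟶ Y), R h → IsInitial Z.left := fun Z h hh =>
    have := hemp Z h hh
    isInitialOfIsEmpty
  let fam : Presieve.FamilyOfElements (yoneda.obj W) R.arrows := fun Z h hh =>
    Over.homMk (U := Z) (V := W) ((hini Z h hh).to W.left) ((hini Z h hh).hom_ext _ _)
  have hfam : fam.Compatible := by
    rw [Presieve.compatible_iff_sieveCompatible]
    intro Z V h g hh
    exact Over.OverMorphism.ext ((hini V (g ≫ h) (R.downward_closed hh g)).hom_ext _ _)
  obtain ⟨r, -, -⟩ := hs fam hfam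
  have r' : Y ⟶ W := r
  obtain ⟨y⟩ := hY
  have hW : IsEmpty W.left := by
    change IsEmpty (∅ : Scheme)
    infer_instance
  exact hW.elim (r'.left y)

lemma sp_cover (A : Type) [CommRing A] [Algebra κ A] [Nontrivial A] (f : sp κ A ⟶ pt κ) :
    Sieve.ofArrows _ (fun _ : PUnit.{1} => f) ∈ fpqc κ (pt κ) := by
  rw [GrothendieckTopology.mem_over_iff, Sieve.overEquiv_ofArrows]
  have hf : f.left = Spec.map (CommRingCat.ofHom (algebraMap κ A)) := by
    have := Over.w f
    simpa using this
  have h0 : Flat (Spec.map (CommRingCat.ofHom (algebraMap κ A))) ∧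
      Surjective (Spec.map (CommRingCat.ofHom (algebraMap κ A))) := by
    rw [flat_and_surjective_SpecMap_iff]
    exact RingHom.faithfullyFlat_algebraMap_iff.2 inferInstance
  have h3 : QuasiCompact (Spec.map (CommRingCat.ofHom (algebraMap κ A))) := inferInstance
  have h1 : Flat f.left := by rw [hf]; exact h0.1
  have h2 : Surjective f.left := by rw [hf]; exact h0.2
  have h3 : QuasiCompact f.left := by rw [hf]; exact h3
  have := Precoverage.generate_mem_toGrothendieck
    (Scheme.Hom.singleton_mem_fpqcPrecoverage f.left)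
  rw [Sieve.ofArrows, Presieve.ofArrows_pUnit]
  exact this

end Pool.Agent.Helper17.NG
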